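import Pool.Agent.Helper22.AE.Defs
import Pool.Agent.Helper92.GC.D2

/-!
# Project LMA (MP_fb29e9_nt): block bounds with a power saving
-/

open MeasureTheory Real Set Filter Topology Metric
open scoped ENNReal NNReal

set_option autoImplicit false

namespace Pool.Agent.Helper75.LMA

open Pool.Agent.Helper22.AE
open Pool.Agent.Helper92.GC (dt sqa)

/-- block bounds of order `s` with a power saving in the frequency -/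
def BlkT (H' : ℝ → ℝ) (s e : ℝ) : Prop :=
  ∃ K u : ℝ, 0 ≤ K ∧ 0 < u ∧ ∃ p₀ : ℕ, ∀ p : ℕ, p₀ ≤ p → ∃ B : ℕ → ℝ → ℝ, ∀ n : ℕ, (2 : ℝ) ^ n ≤ ((2 : ℝ) ^ p) ^ (1 / 2 + e) →
    Continuous (B n) ∧ (∀ r, 0 ≤ B n r) ∧
    (∀ r ∈ Icc ((2 : ℝ) ^ p / 2) (4 * 2 ^ p), ∀ c' : ℝ × ℝ, ‖∑ k ∈ sqa (2 ^ n), ft (fun θ => r * H' θ) k * ee (dt k c')‖ ≤ B n r) ∧
    ∫ r in Icc ((2 : ℝ) ^ p / 2) (4 * 2 ^ p), B n r ^ s ≤ K * ((2 : ℝ) ^ p) ^ (1 + s / 2) * ((2 : ℝ) ^ n) ^ (-u)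

end Pool.Agent.Helper75.LMA
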