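import Pool.Agent.Helper75.LMA.Blk

/-!
# Project LMA: block bounds of order `s` for one frame
-/

open MeasureTheory Real Set Filter Topology Metric
open scoped ENNReal NNReal

set_option autoImplicit false
set_option linter.unusedVariables false

namespace Pool.Agent.Helper75.LMA

open Pool.Agent.Helper22.AE
open Pool.Agent.Helper22.AC (cntc ga)
open Pool.Agent.Helper22.OV (o3_k0_cont o3_k0_nonneg cntc_bdd)
open Pool.Agent.Helper92.GC (dt sqa)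
open Pool.Agent.Helper92.LA (lf Fb HL WL fr_bd)
open Pool.Agent.Helper75.TW (TB TB_pos)
open Pool.Agent.Helper75.GD (WJ beta_pos75)
open Pool.Agent.Helper22.LP (Fr fv fk fdet hom LS wr Hf Hf_isSupp nr nr_eq nr_pos)
open Pool.Agent.Helper75.LM (GB Md root_le mass20 holdq tb_le)

/-- the trivial bound of the sums -/
private theorem ls_triv75 {M B : ℝ} (hM : 1 ≤ M) {f : Fr} (hf : Fb M f) {h : ℝ × ℝ → ℝ} {w : ℝ × ℝ → ℂ} (hw : WL B w) {i N : ℕ}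
    (hi : i ≤ 2) (hN : 1 ≤ N) (r : ℝ) (c : ℝ × ℝ) : ‖LS f h w i N r c‖ ≤ 25 * (2 * M ^ 2) ^ 2 * B * (N : ℝ) ^ 2 := by
  classical
  have hB : 0 ≤ B := (norm_nonneg _).trans (hw.bdd (0, 0))
  have hNr : (1 : ℝ) ≤ N := by exact_mod_cast hN
  have hM2 : 1 ≤ 2 * M ^ 2 := by nlinarith
  have hterm : ∀ k ∈ sqa N, ‖(((N : ℝ) / nr (fk f k) : ℝ) : ℂ) ^ i * w (fk f k) * ee (r * h (fk f k) + dt k c)‖ ≤ (2 * M ^ 2) ^ 2 * B := by
    intro k hk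
    rw [norm_mul, norm_mul, norm_pow, ee_norm, mul_one, Complex.norm_real, Real.norm_eq_abs]
    obtain ⟨⟨a, b⟩, c', d⟩ := f
    obtain ⟨h1, -, -⟩ := fr_bd hM hf hk
    have h2 : max |lf a c' k| |lf b d k| ≤ nr (fk ((a, b), c', d) k) := by
      rw [nr_eq]
      have e1 : (fk ((a, b), c', d) k).1 = lf a c' k := by
        unfold fk fv lf
        simp only
        ring
      have e2 : (fk ((a, b), c', d) k).2 = lf b d k := by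
        unfold fk fv lf
        simp only
        ring
      rw [e1, e2]
      refine max_le ?_ ?_
      · apply Real.le_sqrt_of_sq_le
        rw [sq_abs]
        linarith [sq_nonneg (lf b d k)]
      · apply Real.le_sqrt_of_sq_le
        rw [sq_abs]
        linarith [sq_nonneg (lf a c' k)]
    have h3 : (N : ℝ) ≤ 2 * M ^ 2 * nr (fk ((a, b), c', d) k) :=
      h1.trans (mul_le_mul_of_nonneg_left h2 (by positivity))
    have h4 : 0 < nr (fk ((a, b), c', d) k) := by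
      by_contra hn
      push Not at hn
      have := mul_nonpos_of_nonneg_of_nonpos (show 0 ≤ 2 * M ^ 2 by positivity) hn
      linarith
    have h5 : |(N : ℝ) / nr (fk ((a, b), c', d) k)| ≤ 2 * M ^ 2 := by
      rw [abs_of_nonneg (by positivity), div_le_iff₀ h4]
      exact h3
    have h6 : |(N : ℝ) / nr (fk ((a, b), c', d) k)| ^ i ≤ (2 * M ^ 2) ^ 2 :=
      (pow_le_pow_left₀ (abs_nonneg _) h5 i).trans (pow_le_pow_right₀ hM2 hi)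
    exact mul_le_mul h6 (hw.bdd _) (norm_nonneg _) (by positivity)
  have hcard : ((sqa N).card : ℝ) ≤ 25 * (N : ℝ) ^ 2 := by
    have h1 : (sqa N).card ≤ (box (2 * N)).card := Finset.card_le_card (Finset.filter_subset _ _)
    have h2 : (box (2 * N)).card = (4 * N + 1) ^ 2 := by
      unfold box
      rw [Finset.card_product, Int.card_Icc]
      have : (((2 * N : ℕ) : ℤ) + 1 - -((2 * N : ℕ) : ℤ)).toNat = 4 * N + 1 := by omega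
      rw [this]
      ring
    rw [h2] at h1
    have h3 : ((sqa N).card : ℝ) ≤ (4 * (N : ℝ) + 1) ^ 2 := by exact_mod_cast h1
    refine h3.trans ?_
    nlinarith
  unfold LS
  refine (norm_sum_le _ _).trans ((Finset.sum_le_sum hterm).trans ?_)
  rw [Finset.sum_const, nsmul_eq_mul]
  have := mul_le_mul_of_nonneg_right hcard (show 0 ≤ (2 * M ^ 2) ^ 2 * B by positivity)
  linarith

private theorem fb75 {f : Fr} (hf : fdet f ≠ 0) : ∃ M : ℝ, 1 ≤ M ∧ Fb M f := by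
  have h0 : 0 < |fdet f| := abs_pos.2 hf
  refine ⟨1 + |f.1.1| + |f.1.2| + |f.2.1| + |f.2.2| + 1 / |fdet f|, ?_, ?_⟩
  · have := abs_nonneg f.1.1
    have := abs_nonneg f.1.2
    have := abs_nonneg f.2.1
    have := abs_nonneg f.2.2
    have : 0 ≤ 1 / |fdet f| := by positivity
    linarith
  · have h1 := abs_nonneg f.1.1
    have h2 := abs_nonneg f.1.2
    have h3 := abs_nonneg f.2.1
    have h4 := abs_nonneg f.2.2
    have h5 : 0 ≤ 1 / |fdet f| := by positivity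
    refine ⟨by linarith, by linarith, by linarith, by linarith, ?_⟩
    have h6 : 1 = 1 / |fdet f| * |fdet f| := by field_simp
    calc (1 : ℝ) = 1 / |fdet f| * |fdet f| := h6
      _ ≤ _ := mul_le_mul_of_nonneg_right (by linarith) h0.le

theorem num_smallT {q : ℕ} {P s e u X N : ℝ} (hP : P + 4 = 2 * q) (hX : 1 ≤ X) (hN : 1 ≤ N) (hu : u + e ≤ (P - s) / 2) :
    (X ^ (1 / 2 : ℝ) * N ^ (-(3 / 2) : ℝ)) ^ s * ((N ^ 2) ^ (s - q) * (N ^ 2 * (N ^ e * (X * N ^ q)))) ≤ X ^ (1 + s / 2) * N ^ (-u) := by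
  have hX0 : 0 < X := by linarith
  have hN0 : 0 < N := by linarith
  have e1 : (X ^ (1 / 2 : ℝ) * N ^ (-(3 / 2) : ℝ)) ^ s = X ^ (s / 2) * N ^ (-(3 / 2) * s) := by
    rw [mul_rpow (by positivity) (by positivity), ← rpow_mul hX0.le, ← rpow_mul hN0.le]
    congr 2
    ring
  have e2 : (N ^ 2) ^ (s - q) = N ^ (2 * (s - q)) := by
    rw [← rpow_natCast N 2, ← rpow_mul hN0.le]
    norm_num
  have e3 : N ^ 2 = N ^ (2 : ℝ) := by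
    rw [← rpow_natCast N 2]
    norm_num
  have e4 : N ^ q = N ^ (q : ℝ) := (rpow_natCast N q).symm
  rw [e1, e2, e3, e4]
  calc X ^ (s / 2) * N ^ (-(3 / 2) * s) * (N ^ (2 * (s - q)) * (N ^ (2 : ℝ) * (N ^ e * (X * N ^ (q : ℝ)))))
      = (X * X ^ (s / 2)) * (N ^ (-(3 / 2) * s) * N ^ (2 * (s - q)) * N ^ (2 : ℝ) * N ^ e * N ^ (q : ℝ)) := by ring
    _ = X ^ (1 + s / 2) * N ^ (-(3 / 2) * s + 2 * (s - q) + 2 + e + q) := by
        rw [← rpow_add hN0, ← rpow_add hN0, ← rpow_add hN0, ← rpow_add hN0, rpow_add hX0 1, rpow_one]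
    _ ≤ _ := mul_le_mul_of_nonneg_left (rpow_le_rpow_of_exponent_le hN (by linarith)) (by positivity)

theorem num_midT {q : ℕ} {P s e u θ X N : ℝ} (hs : (q : ℝ) ≤ s) (hsP : s ≤ P) (hPθ : P * (θ - 1 / 2) = 2 * θ) (hθ : 1 / 2 < θ) (hX : 1 ≤ X) (hN : 1 ≤ N)
    (hXN : X ^ (2 * θ - 1) ≤ N) (hu1 : u ≤ 1) (hu : u ≤ (P - s) / 4) (he : e * (s - q + 2) ≤ (θ - 1 / 2) * (P - s) / 2) :
    (X ^ (1 / 2 : ℝ) * N ^ (-(3 / 2) : ℝ)) ^ s * ((X ^ (θ - 1 / 2 + e) * N ^ (3 / 2 : ℝ)) ^ (s - q) * (N ^ 2 * X ^ e * (X ^ e * TB q θ X N))) ≤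
      X ^ (1 + s / 2) * N ^ (-u) := by
  have hX0 : 0 < X := by linarith
  have hN0 : 0 < N := by linarith
  have e1 : (X ^ (1 / 2 : ℝ) * N ^ (-(3 / 2) : ℝ)) ^ s = X ^ (s / 2) * N ^ (-(3 / 2) * s) := by
    rw [mul_rpow (by positivity) (by positivity), ← rpow_mul hX0.le, ← rpow_mul hN0.le]
    congr 2
    ring
  have e2 : (X ^ (θ - 1 / 2 + e) * N ^ (3 / 2 : ℝ)) ^ (s - q) = X ^ ((θ - 1 / 2 + e) * (s - q)) * N ^ (3 / 2 * (s - q)) := by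
    rw [mul_rpow (by positivity) (by positivity), ← rpow_mul hX0.le, ← rpow_mul hN0.le]
  have e3 : N ^ 2 = N ^ (2 : ℝ) := by
    rw [← rpow_natCast N 2]
    norm_num
  have e4 : TB q θ X N = X ^ ((θ - 1 / 2) * q) * N ^ (3 / 2 * (q : ℝ) - 3) := by
    unfold TB
    rw [mul_pow, ← rpow_natCast (X ^ (θ - 1 / 2)), ← rpow_mul hX0.le, ← rpow_natCast (N ^ (3 / 2 : ℝ)), ← rpow_mul hN0.le, ← rpow_natCast N 3,
      mul_div_assoc, ← rpow_sub hN0]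
    norm_num
  rw [e1, e2, e3, e4]
  have h1 : N ^ (-(1 - u)) ≤ X ^ (-((2 * θ - 1) * (1 - u))) := by
    have h2 : X ^ ((2 * θ - 1) * (1 - u)) ≤ N ^ (1 - u) := by
      rw [rpow_mul hX0.le]
      exact rpow_le_rpow (by positivity) hXN (by linarith)
    rw [rpow_neg hN0.le, rpow_neg hX0.le]
    exact inv_anti₀ (by positivity) h2
  calc X ^ (s / 2) * N ^ (-(3 / 2) * s) * (X ^ ((θ - 1 / 2 + e) * (s - q)) * N ^ (3 / 2 * (s - q)) *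
        (N ^ (2 : ℝ) * X ^ e * (X ^ e * (X ^ ((θ - 1 / 2) * q) * N ^ (3 / 2 * (q : ℝ) - 3)))))
      = (X ^ (s / 2) * X ^ ((θ - 1 / 2 + e) * (s - q)) * X ^ e * X ^ e * X ^ ((θ - 1 / 2) * q)) *
        (N ^ (-(3 / 2) * s) * N ^ (3 / 2 * (s - q)) * N ^ (2 : ℝ) * N ^ (3 / 2 * (q : ℝ) - 3)) := by ring
    _ = X ^ (s / 2 + (θ - 1 / 2 + e) * (s - q) + e + e + (θ - 1 / 2) * q) * N ^ (-(3 / 2) * s + 3 / 2 * (s - q) + 2 + (3 / 2 * (q : ℝ) - 3)) := by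
        rw [← rpow_add hX0, ← rpow_add hX0, ← rpow_add hX0, ← rpow_add hX0, ← rpow_add hN0, ← rpow_add hN0, ← rpow_add hN0]
    _ = X ^ (s / 2 + (θ - 1 / 2 + e) * (s - q) + e + e + (θ - 1 / 2) * q) * (N ^ (-u) * N ^ (-(1 - u))) := by
        rw [← rpow_add hN0]
        congr 2
        ring
    _ ≤ X ^ (s / 2 + (θ - 1 / 2 + e) * (s - q) + e + e + (θ - 1 / 2) * q) * (N ^ (-u) * X ^ (-((2 * θ - 1) * (1 - u)))) :=
        mul_le_mul_of_nonneg_left (mul_le_mul_of_nonneg_left h1 (by positivity)) (by positivity)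
    _ = X ^ (s / 2 + (θ - 1 / 2 + e) * (s - q) + e + e + (θ - 1 / 2) * q + -((2 * θ - 1) * (1 - u))) * N ^ (-u) := by
        rw [rpow_add hX0 (s / 2 + (θ - 1 / 2 + e) * (s - q) + e + e + (θ - 1 / 2) * q) (-((2 * θ - 1) * (1 - u)))]
        generalize X ^ (s / 2 + (θ - 1 / 2 + e) * (s - q) + e + e + (θ - 1 / 2) * q) = a1
        generalize X ^ (-((2 * θ - 1) * (1 - u))) = a2
        ring
    _ ≤ _ := by
        refine mul_le_mul_of_nonneg_right (rpow_le_rpow_of_exponent_le hX ?_) (by positivity)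
        have h2 : (2 * θ - 1) * u ≤ (θ - 1 / 2) * (P - s) / 2 := by
          have h3 : (2 * θ - 1) * u ≤ (2 * θ - 1) * ((P - s) / 4) := mul_le_mul_of_nonneg_left hu (by linarith)
          linarith
        nlinarith


/-- one block bound -/
def BB (H' : ℝ → ℝ) (s : ℝ) (p n : ℕ) (Y : ℝ) : Prop :=
  ∃ B : ℝ → ℝ, Continuous B ∧ (∀ r, 0 ≤ B r) ∧
    (∀ r ∈ Icc ((2 : ℝ) ^ p / 2) (4 * 2 ^ p), ∀ c' : ℝ × ℝ, ‖∑ k ∈ sqa (2 ^ n), ft (fun θ => r * H' θ) k * ee (dt k c')‖ ≤ B r) ∧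
    ∫ r in Icc ((2 : ℝ) ^ p / 2) (4 * 2 ^ p), B r ^ s ≤ Y

theorem win_num2 {τ N Y C I : ℝ} (hτ : 0 < τ) (hN : 0 ≤ N) (h : τ * N ≤ Y) (hY : 1 ≤ Y) (hC : 0 ≤ C) (hI : 0 ≤ I) :
    2 * (2 * τ) * (C * N ^ 2 * (N + 1 / τ) * I) ≤ 8 * C * (N ^ 2 * Y * I) := by
  have h1 : 2 * (2 * τ) * (C * N ^ 2 * (N + 1 / τ) * I) = 4 * C * (N ^ 2 * (τ * N + 1) * I) := by
    field_simp
    ring
  rw [h1]
  have h2 : N ^ 2 * (τ * N + 1) * I ≤ N ^ 2 * (2 * Y) * I :=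
    mul_le_mul_of_nonneg_right (mul_le_mul_of_nonneg_left (by linarith) (by positivity)) hI
  have h3 := mul_le_mul_of_nonneg_left h2 (show 0 ≤ 4 * C by positivity)
  calc _ ≤ _ := h3
    _ = _ := by ring

/-- the final form of the bound -/
private theorem fin_bd {K s u X N Z K' : ℝ} (hK : 1 ≤ K) (hs : 2 ≤ s) (hu1 : u ≤ 1) (hX : 1 ≤ X) (hN : 1 ≤ N) (hNX : N ≤ X) (hZ : Z ≤ K' * (X ^ (1 + s / 2) * N ^ (-u))) :
    K ^ s * (2 ^ s * (Z + 4 * X)) ≤ K ^ s * (2 ^ s * (K' + 4)) * X ^ (1 + s / 2) * N ^ (-u) := by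
  have hX0 : 0 < X := by linarith
  have hN0 : 0 < N := by linarith
  have h1 : X ≤ X ^ (1 + s / 2) * N ^ (-u) := by
    have h2 : X ^ (-1 : ℝ) ≤ N ^ (-u) := by
      calc X ^ (-1 : ℝ) ≤ N ^ (-1 : ℝ) := by
            rw [rpow_neg_one, rpow_neg_one]
            exact inv_anti₀ hN0 hNX
        _ ≤ _ := rpow_le_rpow_of_exponent_le hN (by linarith)
    have h3 : X ^ (2 : ℝ) ≤ X ^ (1 + s / 2) := rpow_le_rpow_of_exponent_le hX (by linarith)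
    calc X = X ^ (2 : ℝ) * X ^ (-1 : ℝ) := by
          rw [← rpow_add hX0]
          norm_num
      _ ≤ _ := mul_le_mul h3 h2 (by positivity) (by positivity)
  calc K ^ s * (2 ^ s * (Z + 4 * X)) ≤ K ^ s * (2 ^ s * (K' * (X ^ (1 + s / 2) * N ^ (-u)) + 4 * (X ^ (1 + s / 2) * N ^ (-u)))) := by
        refine mul_le_mul_of_nonneg_left (mul_le_mul_of_nonneg_left (by linarith) (by positivity)) (by positivity)
    _ = _ := by ring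

/-- the block of a moment, with the target -/
private theorem bb_mid {md J : Fr → (ℝ × ℝ → ℝ) → ℝ → ℕ → ℝ} {q : ℕ} (hd : Md md J q) (hq : 2 ≤ q) {H : ℝ → ℝ} (hH : IsSupp H)
    (hjc : Continuous fun q : ℝ × (ℝ × ℝ) => hom (ga H q.1) q.2) {α₀ : ℝ} (ha0 : 0 < α₀) (ha1 : α₀ < π / 2) {f : Fr} (hf : fdet f ≠ 0) {M B : ℝ} (hM : 1 ≤ M) (hfb : Fb M f)
    (hfam : ∀ α ∈ Icc (-α₀) α₀, HL B (hom (ga H α)) ∧ WL B (wr H α) ∧ WL B (fun _ => 1)) {P s u θ e C₁ : ℝ} (hs : (q : ℝ) ≤ s) (hsP : s ≤ P)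
    (hPθ : P * (θ - 1 / 2) = 2 * θ) (hθ : 1 / 2 < θ) (he : 0 < e) (he2 : e ≤ 1 / 2) (hC₁ : 0 ≤ C₁) (hu1 : u ≤ 1) (hu : u ≤ (P - s) / 4)
    (hes : e * (s - q + 2) ≤ (θ - 1 / 2) * (P - s) / 2) :
    ∃ K : ℝ, 0 ≤ K ∧ ∀ p n : ℕ, 3 ≤ p → ((2 : ℝ) ^ p) ^ (2 * θ - 1) ≤ (2 : ℝ) ^ n → (2 : ℝ) ^ n ≤ ((2 : ℝ) ^ p) ^ (1 / 2 + e) →
      WJ J H α₀ p n f ≤ C₁ * (((2 : ℝ) ^ p) ^ e * TB q θ ((2 : ℝ) ^ p) (2 ^ n)) →
      BB (Hf H f) s p n (K * ((2 : ℝ) ^ p) ^ (1 + s / 2) * ((2 : ℝ) ^ n) ^ (-u)) := by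
  obtain ⟨C₂, hC₂, hwin⟩ := hd.win M B hM
  obtain ⟨C₅, hC₅, hglob⟩ := hd.glob M B hM
  obtain ⟨K, hK, hft⟩ := ft_blk hH hf ha0 ha1
  obtain ⟨D, hD⟩ : ∃ D : ℝ, D = C₁ * C₅ + 1 := ⟨_, rfl⟩
  have hD1 : 1 ≤ D := by
    have : 0 ≤ C₁ * C₅ := by positivity
    rw [hD]
    linarith
  have hD0 : 0 < D := by linarith
  have hs2 : 2 ≤ s := le_trans (by exact_mod_cast hq) hs
  obtain ⟨K', hK'⟩ : ∃ K' : ℝ, K' = (21 * D) ^ (s - q) * (21 ^ q * (8 * C₂ * C₁)) := ⟨_, rfl⟩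
  have hK'0 : 0 ≤ K' := by
    rw [hK']
    positivity
  refine ⟨K ^ s * (2 ^ s * (K' + 4)), by positivity, fun p n hp q1 q2 hW => ?_⟩
  obtain ⟨X, hX⟩ : ∃ X : ℝ, X = (2 : ℝ) ^ p := ⟨_, rfl⟩
  obtain ⟨N, hN⟩ : ∃ N : ℝ, N = (2 : ℝ) ^ n := ⟨_, rfl⟩
  have hX8 : 8 ≤ X := by
    rw [hX]
    calc (8 : ℝ) = 2 ^ 3 := by norm_num
      _ ≤ 2 ^ p := pow_le_pow_right₀ (by norm_num) hp
  have hX1 : 1 ≤ X := by linarith
  have hN1 : 1 ≤ N := by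
    rw [hN]
    exact one_le_pow₀ (by norm_num)
  have hX0 : 0 < X := by linarith
  have hN0 : 0 < N := by linarith
  have hNr : ((2 ^ n : ℕ) : ℝ) = N := by
    rw [hN]
    push_cast
    rfl
  obtain ⟨τ, hτd⟩ : ∃ τ : ℝ, τ = X ^ (-(1 / 2) : ℝ) := ⟨_, rfl⟩
  have hτ : 0 < τ := by
    rw [hτd]
    positivity
  have hτ1 : τ ≤ 1 := by
    rw [hτd]
    calc X ^ (-(1 / 2) : ℝ) ≤ X ^ (0 : ℝ) := rpow_le_rpow_of_exponent_le hX1 (by norm_num)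
      _ = 1 := rpow_zero X
  have hτN : τ * N ≤ X ^ e := by
    have h1 : N ≤ X ^ (1 / 2 + e) := by
      rw [hX, hN]
      exact q2
    calc τ * N ≤ X ^ (-(1 / 2) : ℝ) * X ^ (1 / 2 + e) := by
          rw [hτd]
          exact mul_le_mul_of_nonneg_left h1 (by positivity)
      _ = X ^ e := by
          rw [← rpow_add hX0]
          congr 1
          ring
  have hNX : N ≤ X := by
    calc N ≤ X ^ (1 / 2 + e) := by
          rw [hX, hN]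
          exact q2
      _ ≤ X ^ (1 : ℝ) := rpow_le_rpow_of_exponent_le hX1 (by linarith)
      _ = X := rpow_one X
  have hq1 : 1 ≤ q := by omega
  have hT := (TB_pos (q := q) (θ := θ) hX0 hN0).le
  -- the continuous majorant
  obtain ⟨Jα, hJα⟩ : ∃ Jα : ℝ → ℝ, Jα = fun α => C₅ * N ^ 3 * J f (hom (ga H α)) X (2 ^ n) := ⟨_, rfl⟩
  have hJc : Continuous fun α : ℝ => J f (hom (ga H α)) X (2 ^ n) := by
    simp only [hd.eq]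
    exact continuous_parametric_integral_of_continuous (f := fun (α : ℝ) (r : ℝ) => md f (hom (ga H α)) r (2 ^ n))
      (hd.cont f (fun α => hom (ga H α)) hjc (2 ^ n)) isCompact_Icc
  have hJ0 : ∀ α, 0 ≤ J f (hom (ga H α)) X (2 ^ n) := fun α => by
    rw [hd.eq]
    exact integral_nonneg fun r => hd.nonneg _ _ _ _
  have hJαc : Continuous Jα := by
    rw [hJα]
    exact continuous_const.mul hJc
  have hJα0 : ∀ α, 0 ≤ Jα α := fun α => by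
    rw [hJα]
    exact mul_nonneg (by positivity) (hJ0 α)
  have hκc := o3_k0_cont (beta_pos75 p n)
  have hκ0 := o3_k0_nonneg (beta_pos75 p n)
  have hint : ∫ α in Icc (-α₀) α₀, k0 (1 / sqrt ((2 : ℝ) ^ p * ((2 ^ n : ℕ) : ℝ))) α * Jα α ≤ (D * (X ^ (θ - 1 / 2 + e) * N ^ (3 / 2 : ℝ))) ^ q := by
    have h1 : ∫ α in Icc (-α₀) α₀, k0 (1 / sqrt ((2 : ℝ) ^ p * ((2 ^ n : ℕ) : ℝ))) α * Jα α = C₅ * N ^ 3 * WJ J H α₀ p n f := by
      unfold WJ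
      rw [← integral_const_mul, hJα, hX]
      refine integral_congr_ae (Eventually.of_forall fun α => ?_)
      simp only
      ring
    rw [h1]
    rw [← hX, ← hN] at hW
    refine (mul_le_mul_of_nonneg_left hW (by positivity)).trans (tb_le hq1 hX1 hN0 he.le hC₁ hC₅.le hD1 ?_)
    rw [hD]
    linarith
  have ha := holdq hq1 hκc hκ0 hJαc hJα0 (mass20 ha0 ha1 (beta_pos75 p n)) (l := D * (X ^ (θ - 1 / 2 + e) * N ^ (3 / 2 : ℝ))) (by positivity) hint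
  obtain ⟨F, f1, f2, f3, f4⟩ := blkB hd hq1 hjc ha0 ha1 (f := f) hC₂
    (fun α hα N hN τ hτ r₀ r hr c => by
      obtain ⟨h1, h2, h3⟩ := hfam α hα
      exact ⟨hwin f hfb _ h1 _ h2 1 (by norm_num) N hN τ hτ r₀ r hr c, hwin f hfb _ h1 _ h3 2 (by norm_num) N hN τ hτ r₀ r hr c⟩)
    hK hft (p := p) (n := n) hτ (by rw [← hX]; linarith) (g₀ := fun α => Jα α ^ (1 / (q : ℝ))) (hJαc.rpow_const fun _ => Or.inr (by positivity))
    (fun α => rpow_nonneg (hJα0 α) _)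
    (fun α hα r hr c => by
      obtain ⟨h1, h2, h3⟩ := hfam α hα
      rw [← hX] at hr
      have g1 := hglob f hfb _ h1 _ h2 1 (by norm_num) (2 ^ n) Nat.one_le_two_pow X hX1 r hr c
      have g2 := hglob f hfb _ h1 _ h3 2 (by norm_num) (2 ^ n) Nat.one_le_two_pow X hX1 r hr c
      rw [hNr] at g1 g2
      simp only [hJα]
      exact ⟨root_le hq1 (norm_nonneg _) g1, root_le hq1 (norm_nonneg _) g2⟩)
    ha hW hs
  refine ⟨F, f1, f2, f3, f4.trans ?_⟩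
  rw [← hX, hNr, ← hN]
  refine fin_bd hK hs2 hu1 hX1 hN1 hNX ?_
  have h1 := win_num2 (C := C₂) (I := C₁ * (X ^ e * TB q θ X N)) hτ hN0.le hτN (one_le_rpow hX1 he.le) hC₂.le (by positivity)
  have h2 := num_midT (q := q) (P := P) (s := s) (e := e) (u := u) (θ := θ) (X := X) (N := N) hs hsP hPθ hθ hX1 hN1 (by rw [hX, hN]; exact q1) hu1 hu hes
  have hbb : 0 ≤ (X ^ (1 / 2 : ℝ) * N ^ (-(3 / 2) : ℝ)) ^ s := by positivity
  calc (X ^ (1 / 2 : ℝ) * N ^ (-(3 / 2) : ℝ)) ^ s * ((21 * (D * (X ^ (θ - 1 / 2 + e) * N ^ (3 / 2 : ℝ)))) ^ (s - q) *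
        (21 ^ q * (2 * (2 * τ) * (C₂ * N ^ 2 * (N + 1 / τ) * (C₁ * (X ^ e * TB q θ X N))))))
      ≤ (X ^ (1 / 2 : ℝ) * N ^ (-(3 / 2) : ℝ)) ^ s * ((21 * (D * (X ^ (θ - 1 / 2 + e) * N ^ (3 / 2 : ℝ)))) ^ (s - q) *
        (21 ^ q * (8 * C₂ * (N ^ 2 * X ^ e * (C₁ * (X ^ e * TB q θ X N)))))) :=
        mul_le_mul_of_nonneg_left (mul_le_mul_of_nonneg_left (mul_le_mul_of_nonneg_left h1 (by positivity)) (by positivity)) hbb
    _ = K' * ((X ^ (1 / 2 : ℝ) * N ^ (-(3 / 2) : ℝ)) ^ s * ((X ^ (θ - 1 / 2 + e) * N ^ (3 / 2 : ℝ)) ^ (s - q) * (N ^ 2 * X ^ e * (X ^ e * TB q θ X N)))) := by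
        have e1 : (21 * (D * (X ^ (θ - 1 / 2 + e) * N ^ (3 / 2 : ℝ)))) ^ (s - q) = (21 * D) ^ (s - q) * (X ^ (θ - 1 / 2 + e) * N ^ (3 / 2 : ℝ)) ^ (s - q) := by
          rw [← mul_assoc 21 D, mul_rpow (by positivity) (by positivity)]
        rw [e1, hK']
        generalize (21 * D) ^ (s - q) = a1
        generalize (X ^ (θ - 1 / 2 + e) * N ^ (3 / 2 : ℝ)) ^ (s - q) = a2
        generalize (X ^ (1 / 2 : ℝ) * N ^ (-(3 / 2) : ℝ)) ^ s = a3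
        generalize TB q θ X N = a4
        generalize X ^ e = a5
        ring
    _ ≤ _ := mul_le_mul_of_nonneg_left h2 hK'0

/-- the small block -/
private theorem bb_small {md J : Fr → (ℝ × ℝ → ℝ) → ℝ → ℕ → ℝ} {q : ℕ} (hd : Md md J q) (hq : 2 ≤ q) {H : ℝ → ℝ} (hH : IsSupp H)
    (hjc : Continuous fun q : ℝ × (ℝ × ℝ) => hom (ga H q.1) q.2) {α₀ : ℝ} (ha0 : 0 < α₀) (ha1 : α₀ < π / 2) {f : Fr} (hf : fdet f ≠ 0) {M B : ℝ} (hM : 1 ≤ M) (hfb : Fb M f)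
    (hfam : ∀ α ∈ Icc (-α₀) α₀, HL B (hom (ga H α)) ∧ WL B (wr H α) ∧ WL B (fun _ => 1)) {P s u θ e C₁ : ℝ} (hP : P + 4 = 2 * q) (hs : (q : ℝ) ≤ s)
    (hθ : 1 / 2 < θ) (hθ1 : θ ≤ 3 / 4) (he : 0 < e) (hC₁ : 0 ≤ C₁) (hu1 : u ≤ 1) (hu : u + e ≤ (P - s) / 2) :
    ∃ K : ℝ, 0 ≤ K ∧ ∀ p n : ℕ, 3 ≤ p → (2 : ℝ) ^ n ≤ ((2 : ℝ) ^ p) ^ (2 * θ - 1) →
      WJ J H α₀ p n f ≤ C₁ * (((2 : ℝ) ^ n) ^ e * ((2 : ℝ) ^ p * ((2 : ℝ) ^ n) ^ q)) →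
      BB (Hf H f) s p n (K * ((2 : ℝ) ^ p) ^ (1 + s / 2) * ((2 : ℝ) ^ n) ^ (-u)) := by
  obtain ⟨C₂, hC₂, hwin⟩ := hd.win M B hM
  obtain ⟨K, hK, hft⟩ := ft_blk hH hf ha0 ha1
  obtain ⟨T, hT⟩ : ∃ T : ℝ, T = 25 * (2 * M ^ 2) ^ 2 * |B| := ⟨_, rfl⟩
  have hT0 : 0 ≤ T := by
    rw [hT]
    positivity
  have hq1 : 1 ≤ q := by omega
  have hs2 : 2 ≤ s := le_trans (by exact_mod_cast hq) hs
  obtain ⟨K', hK'⟩ : ∃ K' : ℝ, K' = (20 * T) ^ (s - q) * (21 ^ q * (8 * C₂ * C₁)) := ⟨_, rfl⟩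
  have hK'0 : 0 ≤ K' := by
    rw [hK']
    positivity
  refine ⟨K ^ s * (2 ^ s * (K' + 4)), by positivity, fun p n hp q2 hW => ?_⟩
  obtain ⟨X, hX⟩ : ∃ X : ℝ, X = (2 : ℝ) ^ p := ⟨_, rfl⟩
  obtain ⟨N, hN⟩ : ∃ N : ℝ, N = (2 : ℝ) ^ n := ⟨_, rfl⟩
  have hX8 : 8 ≤ X := by
    rw [hX]
    calc (8 : ℝ) = 2 ^ 3 := by norm_num
      _ ≤ 2 ^ p := pow_le_pow_right₀ (by norm_num) hp
  have hX1 : 1 ≤ X := by linarith
  have hN1 : 1 ≤ N := by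
    rw [hN]
    exact one_le_pow₀ (by norm_num)
  have hX0 : 0 < X := by linarith
  have hN0 : 0 < N := by linarith
  have hNr : ((2 ^ n : ℕ) : ℝ) = N := by
    rw [hN]
    push_cast
    rfl
  obtain ⟨τ, hτd⟩ : ∃ τ : ℝ, τ = X ^ (-(1 / 2) : ℝ) := ⟨_, rfl⟩
  have hτ : 0 < τ := by
    rw [hτd]
    positivity
  have hτ1 : τ ≤ 1 := by
    rw [hτd]
    calc X ^ (-(1 / 2) : ℝ) ≤ X ^ (0 : ℝ) := rpow_le_rpow_of_exponent_le hX1 (by norm_num)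
      _ = 1 := rpow_zero X
  have hNh : N ≤ X ^ (1 / 2 : ℝ) := by
    calc N ≤ X ^ (2 * θ - 1) := by
          rw [hX, hN]
          exact q2
      _ ≤ X ^ (1 / 2 : ℝ) := rpow_le_rpow_of_exponent_le hX1 (by linarith)
  have hτN : τ * N ≤ 1 := by
    calc τ * N ≤ X ^ (-(1 / 2) : ℝ) * X ^ (1 / 2 : ℝ) := by
          rw [hτd]
          exact mul_le_mul_of_nonneg_left hNh (by positivity)
      _ = 1 := by
          rw [← rpow_add hX0]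
          norm_num
  have hNX : N ≤ X := by
    calc N ≤ X ^ (1 / 2 : ℝ) := hNh
      _ ≤ X ^ (1 : ℝ) := rpow_le_rpow_of_exponent_le hX1 (by norm_num)
      _ = X := rpow_one X
  have hκ0 := o3_k0_nonneg (beta_pos75 p n)
  have ha : ∫ α in Icc (-α₀) α₀, k0 (1 / sqrt ((2 : ℝ) ^ p * ((2 ^ n : ℕ) : ℝ))) α * (T * N ^ 2) ≤ 20 * (T * N ^ 2) := by
    rw [integral_mul_const]
    exact mul_le_mul_of_nonneg_right (mass20 ha0 ha1 (beta_pos75 p n)) (by positivity)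
  obtain ⟨F, f1, f2, f3, f4⟩ := blkB hd hq1 hjc ha0 ha1 (f := f) hC₂
    (fun α hα N hN τ hτ r₀ r hr c => by
      obtain ⟨h1, h2, h3⟩ := hfam α hα
      exact ⟨hwin f hfb _ h1 _ h2 1 (by norm_num) N hN τ hτ r₀ r hr c, hwin f hfb _ h1 _ h3 2 (by norm_num) N hN τ hτ r₀ r hr c⟩)
    hK hft (p := p) (n := n) hτ (by rw [← hX]; linarith) (g₀ := fun _ => T * N ^ 2) continuous_const (fun _ => by positivity)
    (fun α hα r hr c => by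
      obtain ⟨h1, h2, h3⟩ := hfam α hα
      have hB0 : 0 ≤ B := (norm_nonneg _).trans (h3.bdd (0, 0))
      have g1 := ls_triv75 hM hfb h2 (h := hom (ga H α)) (i := 1) (by norm_num) (N := 2 ^ n) Nat.one_le_two_pow r c
      have g2 := ls_triv75 hM hfb h3 (h := hom (ga H α)) (i := 2) (by norm_num) (N := 2 ^ n) Nat.one_le_two_pow r c
      rw [hNr] at g1 g2
      rw [hT, abs_of_nonneg hB0]
      exact ⟨g1, g2⟩)
    ha hW hs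
  refine ⟨F, f1, f2, f3, f4.trans ?_⟩
  rw [← hX, hNr, ← hN]
  refine fin_bd hK hs2 hu1 hX1 hN1 hNX ?_
  have h1 := win_num2 (C := C₂) (I := C₁ * (N ^ e * (X * N ^ q))) hτ hN0.le hτN le_rfl hC₂.le (by positivity)
  have h2 := num_smallT (q := q) (P := P) (s := s) (e := e) (u := u) (X := X) (N := N) hP hX1 hN1 hu
  have hbb : 0 ≤ (X ^ (1 / 2 : ℝ) * N ^ (-(3 / 2) : ℝ)) ^ s := by positivity
  calc (X ^ (1 / 2 : ℝ) * N ^ (-(3 / 2) : ℝ)) ^ s * ((20 * (T * N ^ 2)) ^ (s - q) *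
        (21 ^ q * (2 * (2 * τ) * (C₂ * N ^ 2 * (N + 1 / τ) * (C₁ * (N ^ e * (X * N ^ q)))))))
      ≤ (X ^ (1 / 2 : ℝ) * N ^ (-(3 / 2) : ℝ)) ^ s * ((20 * (T * N ^ 2)) ^ (s - q) *
        (21 ^ q * (8 * C₂ * (N ^ 2 * 1 * (C₁ * (N ^ e * (X * N ^ q))))))) :=
        mul_le_mul_of_nonneg_left (mul_le_mul_of_nonneg_left (mul_le_mul_of_nonneg_left h1 (by positivity)) (by positivity)) hbb
    _ = K' * ((X ^ (1 / 2 : ℝ) * N ^ (-(3 / 2) : ℝ)) ^ s * ((N ^ 2) ^ (s - q) * (N ^ 2 * (N ^ e * (X * N ^ q))))) := by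
        have e1 : (20 * (T * N ^ 2)) ^ (s - q) = (20 * T) ^ (s - q) * (N ^ 2) ^ (s - q) := by
          rw [← mul_assoc 20 T, mul_rpow (by positivity) (by positivity)]
        rw [e1, hK']
        generalize (20 * T) ^ (s - q) = a1
        generalize (N ^ 2) ^ (s - q) = a2
        generalize (X ^ (1 / 2 : ℝ) * N ^ (-(3 / 2) : ℝ)) ^ s = a3
        generalize N ^ e = a5
        ring
    _ ≤ _ := mul_le_mul_of_nonneg_left h2 hK'0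

/-- one frame, from the bounds of the moments -/
theorem blkT_of {H : ℝ → ℝ} (hH : IsSupp H) {α₀ B : ℝ} (ha0 : 0 < α₀) (ha1 : α₀ < π / 2)
    (hjc : Continuous fun q : ℝ × (ℝ × ℝ) => hom (ga H q.1) q.2)
    (hfam : ∀ α ∈ Icc (-α₀) α₀, HL B (hom (ga H α)) ∧ WL B (wr H α) ∧ WL B (fun _ => 1)) {f : Fr} (hf : fdet f ≠ 0)
    {md md' J J' : Fr → (ℝ × ℝ → ℝ) → ℝ → ℕ → ℝ} {q q' : ℕ} (hd : Md md J q) (hd' : Md md' J' q') (hq : 2 ≤ q) (hq' : 2 ≤ q') (hqq : q' ≤ q)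
    {P : ℝ} (hP : P + 4 = 2 * q) {θ ν₂ : ℝ} (hθ : 1 / 2 < θ) (hθ1 : θ ≤ 3 / 4) (hPθ : P * (θ - 1 / 2) = 2 * θ)
    (hs : ∀ e : ℝ, 0 < e → ∃ C : ℝ, 0 ≤ C ∧ ∀ p n : ℕ, n ≤ p → (2 : ℝ) ^ n ≤ ((2 : ℝ) ^ p) ^ (2 * θ - 1) →
      WJ J H α₀ p n f ≤ C * (((2 : ℝ) ^ n) ^ e * ((2 : ℝ) ^ p * ((2 : ℝ) ^ n) ^ q)))
    (hm : ∀ e : ℝ, 0 < e → e ≤ 1 / 102 → ∃ C : ℝ, 0 ≤ C ∧ ∀ p n : ℕ, n ≤ p → ((2 : ℝ) ^ p) ^ (2 * θ - 1) ≤ (2 : ℝ) ^ n → (2 : ℝ) ^ n ≤ ((2 : ℝ) ^ p) ^ ν₂ →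
      WJ J H α₀ p n f ≤ C * (((2 : ℝ) ^ p) ^ e * TB q θ ((2 : ℝ) ^ p) (2 ^ n)))
    (hl : ∀ e : ℝ, 0 < e → e ≤ 1 / 102 → ∃ C : ℝ, 0 ≤ C ∧ ∀ p n : ℕ, n ≤ p → ((2 : ℝ) ^ p) ^ (2 * θ - 1) ≤ (2 : ℝ) ^ n → ((2 : ℝ) ^ p) ^ ν₂ ≤ (2 : ℝ) ^ n →
      (2 : ℝ) ^ n ≤ ((2 : ℝ) ^ p) ^ (1 / 2 + e) → WJ J' H α₀ p n f ≤ C * (((2 : ℝ) ^ p) ^ e * TB q' θ ((2 : ℝ) ^ p) (2 ^ n))) :
    ∀ s : ℝ, (q : ℝ) ≤ s → s < P → ∃ e₀ : ℝ, 0 < e₀ ∧ ∀ e : ℝ, 0 < e → e ≤ e₀ → BlkT (Hf H f) s e := by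
  intro s hsq hsP
  have hq2 : (2 : ℝ) ≤ q := by exact_mod_cast hq
  have hq2' : (2 : ℝ) ≤ q' := by exact_mod_cast hq'
  have hqq' : (q' : ℝ) ≤ q := by exact_mod_cast hqq
  have hP0 : 0 < P := by linarith
  obtain ⟨M, hM, hfb⟩ := fb75 hf
  obtain ⟨u, hu⟩ : ∃ u : ℝ, u = min ((P - s) / 4) 1 := ⟨_, rfl⟩
  have hu0 : 0 < u := by
    rw [hu]
    exact lt_min (by linarith) (by norm_num)
  have hu1 : u ≤ 1 := by
    rw [hu]
    exact min_le_right _ _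
  have hu4 : u ≤ (P - s) / 4 := by
    rw [hu]
    exact min_le_left _ _
  have hPs : 0 < P - s := by linarith
  have hθ0 : 0 < θ - 1 / 2 := by linarith
  refine ⟨min (1 / 102) ((θ - 1 / 2) * (P - s) / (2 * P)), lt_min (by norm_num) (by positivity), fun e he hee => ?_⟩
  have he1 : e ≤ 1 / 102 := hee.trans (min_le_left _ _)
  have he2 : e * P ≤ (θ - 1 / 2) * (P - s) / 2 := by
    have h1 := hee.trans (min_le_right _ _)
    have h2 := mul_le_mul_of_nonneg_right h1 hP0.le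
    have h3 : (θ - 1 / 2) * (P - s) / (2 * P) * P = (θ - 1 / 2) * (P - s) / 2 := by
      field_simp
    linarith
  have he3 : ∀ z : ℝ, z ≤ P → e * z ≤ (θ - 1 / 2) * (P - s) / 2 := fun z hz => (mul_le_mul_of_nonneg_left hz he.le).trans he2
  obtain ⟨C₁, hC₁, h1⟩ := hs ((P - s) / 4) (by linarith)
  obtain ⟨C₂, hC₂, h2⟩ := hm e he he1
  obtain ⟨C₃, hC₃, h3⟩ := hl e he he1
  obtain ⟨K₁, hK₁, k1⟩ := bb_small hd hq hH hjc ha0 ha1 hf hM hfb hfam (P := P) (s := s) (u := u) (θ := θ) hP hsq hθ hθ1 (show 0 < (P - s) / 4 by linarith) hC₁ hu1 (by linarith)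
  obtain ⟨K₂, hK₂, k2⟩ := bb_mid hd hq hH hjc ha0 ha1 hf hM hfb hfam (P := P) (s := s) (u := u) (θ := θ) hsq hsP.le hPθ hθ he (by linarith) hC₂ hu1 hu4
    (he3 _ (by linarith))
  obtain ⟨K₃, hK₃, k3⟩ := bb_mid hd' hq' hH hjc ha0 ha1 hf hM hfb hfam (P := P) (s := s) (u := u) (θ := θ) (hqq'.trans hsq) hsP.le hPθ hθ he (by linarith) hC₃ hu1 hu4
    (he3 _ (by linarith))
  obtain ⟨K, hK⟩ : ∃ K : ℝ, K = K₁ + K₂ + K₃ := ⟨_, rfl⟩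
  refine ⟨K, u, by rw [hK]; positivity, hu0, 3, fun p hp => ?_⟩
  have hmono : ∀ (n : ℕ) (K' : ℝ), K' ≤ K → BB (Hf H f) s p n (K' * ((2 : ℝ) ^ p) ^ (1 + s / 2) * ((2 : ℝ) ^ n) ^ (-u)) →
      BB (Hf H f) s p n (K * ((2 : ℝ) ^ p) ^ (1 + s / 2) * ((2 : ℝ) ^ n) ^ (-u)) := by
    intro n K' hK' h
    obtain ⟨F, f1, f2, f3, f4⟩ := h
    refine ⟨F, f1, f2, f3, f4.trans ?_⟩
    exact mul_le_mul_of_nonneg_right (mul_le_mul_of_nonneg_right hK' (by positivity)) (by positivity)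
  have hX1 : (1 : ℝ) ≤ 2 ^ p := one_le_pow₀ (by norm_num)
  have hall : ∀ n : ℕ, ∃ F : ℝ → ℝ, (2 : ℝ) ^ n ≤ ((2 : ℝ) ^ p) ^ (1 / 2 + e) → Continuous F ∧ (∀ r, 0 ≤ F r) ∧
      (∀ r ∈ Icc ((2 : ℝ) ^ p / 2) (4 * 2 ^ p), ∀ c' : ℝ × ℝ, ‖∑ k ∈ sqa (2 ^ n), ft (fun θ => r * Hf H f θ) k * ee (dt k c')‖ ≤ F r) ∧
      ∫ r in Icc ((2 : ℝ) ^ p / 2) (4 * 2 ^ p), F r ^ s ≤ K * ((2 : ℝ) ^ p) ^ (1 + s / 2) * ((2 : ℝ) ^ n) ^ (-u) := by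
    intro n
    by_cases hn : (2 : ℝ) ^ n ≤ ((2 : ℝ) ^ p) ^ (1 / 2 + e)
    · have hnp : n ≤ p := by
        have h4 : (2 : ℝ) ^ n ≤ 2 ^ p := by
          calc (2 : ℝ) ^ n ≤ ((2 : ℝ) ^ p) ^ (1 / 2 + e) := hn
            _ ≤ ((2 : ℝ) ^ p) ^ (1 : ℝ) := rpow_le_rpow_of_exponent_le hX1 (by linarith)
            _ = 2 ^ p := rpow_one _
        exact (pow_le_pow_iff_right₀ (by norm_num)).1 h4
      have hB : BB (Hf H f) s p n (K * ((2 : ℝ) ^ p) ^ (1 + s / 2) * ((2 : ℝ) ^ n) ^ (-u)) := by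
        by_cases a1 : (2 : ℝ) ^ n ≤ ((2 : ℝ) ^ p) ^ (2 * θ - 1)
        · exact hmono n K₁ (by rw [hK]; linarith) (k1 p n hp a1 (h1 p n hnp a1))
        · have a1' := (not_le.1 a1).le
          by_cases a2 : (2 : ℝ) ^ n ≤ ((2 : ℝ) ^ p) ^ ν₂
          · exact hmono n K₂ (by rw [hK]; linarith) (k2 p n hp a1' hn (h2 p n hnp a1' a2))
          · exact hmono n K₃ (by rw [hK]; linarith) (k3 p n hp a1' hn (h3 p n hnp a1' (not_le.1 a2).le hn))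
      obtain ⟨F, hF⟩ := hB
      exact ⟨F, fun _ => hF⟩
    · exact ⟨fun _ => 0, fun h => absurd h hn⟩
  choose F hF using hall
  exact ⟨F, hF⟩

end Pool.Agent.Helper75.LMA
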