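import Pool.Agent.Helper60.LM.Block

/-!
# Project LMA: the moment of one block over a longer interval
-/

open MeasureTheory Real Set Filter Topology Metric
open scoped ENNReal NNReal

set_option autoImplicit false

namespace Pool.Agent.Helper75.LMA

open Pool.Agent.Helper75.LM (GB)
open Pool.Agent.Helper60.LM

/-- one block, any interval -/
theorem block_momW {κ g₀ : ℝ → ℝ} {D : ℝ × ℝ → ℝ} {α₀ A W X : ℝ} {q : ℕ} (hq : 1 ≤ q) (ha : 0 < α₀) (hκ : Continuous κ) (hκ0 : ∀ α, 0 ≤ κ α)
    (hκ1 : ∫ α in Icc (-α₀) α₀, κ α ≤ 20) (hg : Continuous g₀) (hg0 : ∀ α, 0 ≤ g₀ α) (hD : Continuous D) (hD0 : ∀ z, 0 ≤ D z) (hA : 0 < A)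
    (hW : 0 < W) {u v : ℝ} (huv : u ≤ v) (hu : X / 4 ≤ u - W) (hv : v + W ≤ 8 * X) {I : ℝ} (hI : ∫ α in Icc (-α₀) α₀, κ α * ∫ r in Icc (X / 4) (8 * X), D (α, r) ≤ I) :
    Continuous (GB κ g₀ D α₀ A W q) ∧ (∀ R, 0 ≤ GB κ g₀ D α₀ A W q R) ∧ (∀ R, GB κ g₀ D α₀ A W q R ≤ ∫ α in Icc (-α₀) α₀, κ α * g₀ α) ∧
      ∫ R in Icc u v, GB κ g₀ D α₀ A W q R ^ q ≤ 21 ^ q * (2 * W * (A * I)) := by
  have hwc := win_cont hD hW.le
  have hw0 := win_nonneg hD0 W
  have hq0 : (0 : ℝ) ≤ 1 / (q : ℝ) := by positivity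
  have hGc : Continuous fun z : ℝ × ℝ => min ((A * win D W z.2 z.1) ^ (1 / (q : ℝ))) (g₀ z.2) :=
    ((continuous_const.mul hwc).rpow_const fun _ => Or.inr hq0).min (hg.comp continuous_snd)
  have hGR : ∀ R : ℝ, Continuous fun α : ℝ => min ((A * win D W α R) ^ (1 / (q : ℝ))) (g₀ α) := fun R =>
    hGc.comp (continuous_const.prodMk continuous_id)
  have hG0 : ∀ α R : ℝ, 0 ≤ min ((A * win D W α R) ^ (1 / (q : ℝ))) (g₀ α) := fun α R =>
    le_min (rpow_nonneg (mul_nonneg hA.le (hw0 α R)) _) (hg0 α)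
  have hGB : GB κ g₀ D α₀ A W q = fun R => ∫ α in (-α₀)..α₀, κ α * min ((A * win D W α R) ^ (1 / (q : ℝ))) (g₀ α) := by
    funext R
    unfold GB win
    rw [integral_Icc_eq_integral_Ioc, ← intervalIntegral.integral_of_le (by linarith)]
  have hc : Continuous (GB κ g₀ D α₀ A W q) := by
    rw [hGB]
    exact intervalIntegral.continuous_parametric_intervalIntegral_of_continuous'
      (f := fun R α => κ α * min ((A * win D W α R) ^ (1 / (q : ℝ))) (g₀ α)) ((hκ.comp continuous_snd).mul hGc) (-α₀) α₀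
  have hGBn : ∀ R, 0 ≤ GB κ g₀ D α₀ A W q R := fun R =>
    setIntegral_nonneg measurableSet_Icc fun α _ => mul_nonneg (hκ0 α) (hG0 α R)
  refine ⟨hc, hGBn, fun R => ?_, ?_⟩
  · refine setIntegral_mono_on ?_ ?_ measurableSet_Icc fun α _ => mul_le_mul_of_nonneg_left (min_le_right _ _) (hκ0 α)
    · exact (hκ.mul (hGR R)).continuousOn.integrableOn_compact isCompact_Icc
    · exact (hκ.mul hg).continuousOn.integrableOn_compact isCompact_Icc
  · have hwR : ∀ R : ℝ, Continuous fun α : ℝ => A * win D W α R := fun R =>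
      continuous_const.mul (hwc.comp (continuous_const.prodMk continuous_id))
    have hpt : ∀ R, GB κ g₀ D α₀ A W q R ^ q ≤ 21 ^ q * ∫ α in Icc (-α₀) α₀, κ α * (A * win D W α R) := fun R =>
      hold_pow hq hκ hκ0 (hwR R) (fun α => mul_nonneg hA.le (hw0 α R)) (hGR R) (fun α => hG0 α R)
        (fun α => min_le_left _ _) hκ1
    have hjc : Continuous fun z : ℝ × ℝ => κ z.2 * (A * win D W z.2 z.1) := (hκ.comp continuous_snd).mul (continuous_const.mul hwc)
    have hSc : Continuous fun R : ℝ => ∫ α in Icc (-α₀) α₀, κ α * (A * win D W α R) := by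
      have e : (fun R : ℝ => ∫ α in Icc (-α₀) α₀, κ α * (A * win D W α R)) = fun R : ℝ => ∫ α in (-α₀)..α₀, κ α * (A * win D W α R) := by
        funext R
        rw [integral_Icc_eq_integral_Ioc, ← intervalIntegral.integral_of_le (by linarith)]
      rw [e]
      exact intervalIntegral.continuous_parametric_intervalIntegral_of_continuous' (f := fun R α => κ α * (A * win D W α R)) hjc (-α₀) α₀
    have hswap : ∫ R in Icc u v, (∫ α in Icc (-α₀) α₀, κ α * (A * win D W α R)) =
        ∫ α in Icc (-α₀) α₀, (∫ R in Icc u v, κ α * (A * win D W α R)) := by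
      refine integral_integral_swap (f := fun R α => κ α * (A * win D W α R)) ?_
      rw [Measure.prod_restrict]
      exact hjc.continuousOn.integrableOn_compact (isCompact_Icc.prod isCompact_Icc)
    have hin : ∀ α, ∫ R in Icc u v, κ α * (A * win D W α R) ≤ (2 * W * A) * (κ α * ∫ r in Icc (X / 4) (8 * X), D (α, r)) := by
      intro α
      have hDα : Continuous fun r : ℝ => D (α, r) := hD.comp (continuous_const.prodMk continuous_id)
      have h1 := (Pool.Agent.Helper54.LP.win_int hDα (fun r => hD0 _) huv hW.le).2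
      have h2 : ∫ r in Icc (u - W) (v + W), D (α, r) ≤ ∫ r in Icc (X / 4) (8 * X), D (α, r) := by
        refine setIntegral_mono_set (hDα.continuousOn.integrableOn_compact isCompact_Icc) (Eventually.of_forall fun r => hD0 _)
          (Eventually.of_forall (Icc_subset_Icc hu hv))
      have h3 : ∫ R in Icc u v, win D W α R ≤ 2 * W * ∫ r in Icc (X / 4) (8 * X), D (α, r) :=
        h1.trans (mul_le_mul_of_nonneg_left h2 (by positivity))
      rw [integral_const_mul, integral_const_mul]
      calc κ α * (A * ∫ R in Icc u v, win D W α R) ≤ κ α * (A * (2 * W * ∫ r in Icc (X / 4) (8 * X), D (α, r))) :=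
            mul_le_mul_of_nonneg_left (mul_le_mul_of_nonneg_left h3 hA.le) (hκ0 α)
        _ = _ := by ring
    have hDc : Continuous fun α : ℝ => ∫ r in Icc (X / 4) (8 * X), D (α, r) :=
      continuous_parametric_integral_of_continuous (f := fun (α : ℝ) (r : ℝ) => D (α, r)) hD isCompact_Icc
    have hinc : Continuous fun α : ℝ => ∫ R in Icc u v, κ α * (A * win D W α R) :=
      continuous_parametric_integral_of_continuous (f := fun (α : ℝ) (R : ℝ) => κ α * (A * win D W α R)) (hjc.comp continuous_swap) isCompact_Icc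
    calc ∫ R in Icc u v, GB κ g₀ D α₀ A W q R ^ q ≤
          ∫ R in Icc u v, 21 ^ q * ∫ α in Icc (-α₀) α₀, κ α * (A * win D W α R) := by
          refine setIntegral_mono_on ?_ ?_ measurableSet_Icc fun R _ => hpt R
          · exact (hc.pow q).continuousOn.integrableOn_compact isCompact_Icc
          · exact (continuous_const.mul hSc).continuousOn.integrableOn_compact isCompact_Icc
      _ = 21 ^ q * ∫ α in Icc (-α₀) α₀, (∫ R in Icc u v, κ α * (A * win D W α R)) := by
          rw [integral_const_mul, hswap]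
      _ ≤ 21 ^ q * ∫ α in Icc (-α₀) α₀, (2 * W * A) * (κ α * ∫ r in Icc (X / 4) (8 * X), D (α, r)) := by
          refine mul_le_mul_of_nonneg_left ?_ (by positivity)
          refine setIntegral_mono_on ?_ ?_ measurableSet_Icc fun α _ => hin α
          · exact hinc.continuousOn.integrableOn_compact isCompact_Icc
          · exact (continuous_const.mul (hκ.mul hDc)).continuousOn.integrableOn_compact isCompact_Icc
      _ = 21 ^ q * ((2 * W * A) * ∫ α in Icc (-α₀) α₀, κ α * ∫ r in Icc (X / 4) (8 * X), D (α, r)) := by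
          rw [integral_const_mul]
      _ ≤ 21 ^ q * ((2 * W * A) * I) := by gcongr
      _ = _ := by ring

end Pool.Agent.Helper75.LMA
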