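import Pool.Agent.Helper75.LM.Core
import Pool.Agent.Helper75.LMA.Defs
import Pool.Agent.Helper75.LMA.Mom

/-!
# Project LMA: the blocks of the Fourier series of the counting function
-/

open MeasureTheory Real Set Filter Topology Metric
open scoped ENNReal NNReal

set_option autoImplicit false

namespace Pool.Agent.Helper75.LMA

open Pool.Agent.Helper22.AE
open Pool.Agent.Helper22.AC (cntc ga)
open Pool.Agent.Helper92.GC (dt sqa)
open Pool.Agent.Helper22.OV (o3_k0_nonneg o3_k0_cont o3_rho_cont)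
open Pool.Agent.Helper22.LP
open Pool.Agent.Helper75.GD (WJ beta_pos75)
open Pool.Agent.Helper75.TW (TB TB_pos)
open Pool.Agent.Helper92.LA (Fb HL WL lf fr_bd)
open Pool.Agent.Helper75.LM (GB Md root_le mass20 holdq tb_le)

private lemma mul_supp {G : ℝ → ℝ} (hG : IsSupp G) {r : ℝ} (hr : 0 < r) : IsSupp (fun θ => r * G θ) := by
  have := rot_isSupp hG hr 0
  simpa using this

private lemma mul_dd (G : ℝ → ℝ) (r θ : ℝ) : deriv (fun θ => r * G θ) θ = r * deriv G θ := by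
  rw [deriv_const_mul_field]

private lemma mul_ddd (G : ℝ → ℝ) (r θ : ℝ) : deriv (deriv (fun θ => r * G θ)) θ = r * deriv (deriv G) θ := by
  have : deriv (fun θ => r * G θ) = fun θ => r * deriv G θ := funext (mul_dd G r)
  rw [this, deriv_const_mul_field]

private lemma mul_rho (G : ℝ → ℝ) (r θ : ℝ) : rho (fun θ => r * G θ) θ = r * rho G θ := by
  unfold rho
  rw [mul_ddd]
  ring

private lemma mul_ga (G : ℝ → ℝ) (r α t : ℝ) : ga (fun θ => r * G θ) α t = r * ga G α t := by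
  unfold ga
  rw [mul_dd]
  ring

/-- a block -/
private lemma blk {H : ℝ → ℝ} (hH : IsSupp H) {f : Fr} (hf : fdet f ≠ 0) {α₀ : ℝ} (ha0 : 0 < α₀) (ha1 : α₀ < π / 2)
    {m M : ℝ} (hm : 0 < m) (hmk : ∀ N : ℕ, ∀ k ∈ sqa N, m * N ≤ nr (fk f k)) (hM1 : 1 ≤ M) (hM : ∀ t, |rho H t| ≤ M)
    {N : ℕ} (hN : 1 ≤ N) {R₀ r : ℝ} (hR : 1 ≤ R₀) (hr : r ∈ Icc (R₀ / 2) (4 * R₀)) {g : ℝ → ℝ} (hg : IntegrableOn g (Icc (-α₀) α₀))
    (hF : ∀ α ∈ Icc (-α₀) α₀, ∀ c : ℝ × ℝ,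
        ‖LS f (hom (ga H α)) (wr H α) 1 N r c‖ ≤ g α ∧ ‖LS f (hom (ga H α)) (fun _ => 1) 2 N r c‖ ≤ g α) (c : ℝ × ℝ) :
    ‖∑ k ∈ sqa N, ftr (fun θ => r * H θ) (fk f k) * ee (dt k c)‖ ≤
      (15 + 128 * π * (M * (1 / m)) / sin α₀ ^ 2 + 32 * π * (1 / m) ^ 2 / sin α₀ ^ 2) *
        (R₀ ^ (1 / 2 : ℝ) * (N : ℝ) ^ (-(3 / 2) : ℝ) * (∫ α in Icc (-α₀) α₀, k0 (1 / sqrt (R₀ * N)) α * g α) + 1) := by
  have hpi := Real.pi_pos
  have hR0 : 0 < R₀ := by linarith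
  have hr0 : 0 < r := by linarith [hr.1]
  have hN0 : (0 : ℝ) < N := by exact_mod_cast hN
  have hsin : 0 < sin α₀ := sin_pos_of_pos_of_lt_pi ha0 (by linarith)
  set β : ℝ := 1 / sqrt (R₀ * N) with hβd
  have hsq : 0 < sqrt (R₀ * N) := sqrt_pos.2 (by positivity)
  have hβ : 0 < β := by positivity
  have hrp : ∀ t, rho H (t + 2 * π) = rho H t := by
    intro t
    have := Pool.Agent.Helper22.OV.rho_per_o3 hH.per 0 0 t
    simpa using this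
  have h1 := vkr_bound (mul_supp hH hr0) (fun k => fk f k) (fun k => ee (dt k c)) (sqa N)
    (fun k hk => fk_ne hf (sqa_ne hN hk)) hβ
  have e1 : ∀ α, ∑ k ∈ sqa N, ee (dt k c) / (nr (fk f k) : ℂ) * ((rho (fun θ => r * H θ) (tr (fk f k) + α) : ℝ) : ℂ) *
      ee (-(nr (fk f k) * ga (fun θ => r * H θ) α (tr (fk f k)))) =
      ((r / N : ℝ) : ℂ) * TR f 1 N (fun t => rho H (t + α)) (ga H α) r c := by
    intro α
    unfold TR
    rw [Finset.mul_sum]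
    refine Finset.sum_congr rfl fun k hk => ?_
    have h2 : (nr (fk f k) : ℂ) ≠ 0 := by exact_mod_cast (nr_pos (fk_ne hf (sqa_ne hN hk))).ne'
    have h3 : (N : ℂ) ≠ 0 := by exact_mod_cast hN0.ne'
    rw [mul_rho, mul_ga]
    push_cast
    field_simp
  have e2 : ∀ α, ∑ k ∈ sqa N, ee (dt k c) / (nr (fk f k) : ℂ) ^ 2 *
      ee (-(nr (fk f k) * ga (fun θ => r * H θ) α (tr (fk f k)))) =
      ((1 / (N : ℝ) ^ 2 : ℝ) : ℂ) * TR f 2 N (fun _ => 1) (ga H α) r c := by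
    intro α
    unfold TR
    rw [Finset.mul_sum]
    refine Finset.sum_congr rfl fun k hk => ?_
    have h2 : (nr (fk f k) : ℂ) ≠ 0 := by exact_mod_cast (nr_pos (fk_ne hf (sqa_ne hN hk))).ne'
    have h3 : (N : ℂ) ≠ 0 := by exact_mod_cast hN0.ne'
    rw [mul_ga]
    push_cast
    field_simp
  simp only [e1, e2, norm_mul, Complex.norm_real] at h1
  have n1 : ‖r / (N : ℝ)‖ = r / N := by rw [Real.norm_eq_abs, abs_of_pos (by positivity)]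
  have n2 : ‖1 / (N : ℝ) ^ 2‖ = 1 / (N : ℝ) ^ 2 := by rw [Real.norm_eq_abs, abs_of_pos (by positivity)]
  rw [n1, n2] at h1
  set I : ℝ := ∫ α in Icc (-α₀) α₀, k0 β α * g α with hI
  have hg0 : ∀ α ∈ Icc (-α₀) α₀, 0 ≤ g α := fun α hα => (norm_nonneg _).trans (hF α hα 0).1
  have hI0 : 0 ≤ I := by
    rw [hI]
    exact setIntegral_nonneg measurableSet_Icc fun α hα => mul_nonneg (o3_k0_nonneg hβ α) (hg0 α hα)
  have hrc := o3_rho_cont hH.smooth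
  have t1 := TR_int hH hf ha0 ha1 1 hN (w := fun α t => rho H (t + α)) (fun t => hrc.comp (by fun_prop))
    (fun α t => by
      show rho H (t + 2 * π + α) = rho H (t + α)
      rw [show t + 2 * π + α = t + α + 2 * π by ring, hrp])
    (fun α t => by
      show rho H (t + (α + π)) = rho H (t + π + α)
      congr 1
      ring)
    (fun α t => by
      show rho H (t + (α - π)) = rho H (t + π + α)
      rw [← hrp (t + (α - π))]
      congr 1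
      ring) (E := 16 * (N : ℝ) ^ 2 * (M * (1 / m) ^ 1)) (r := r) c
    (fun α => TR_triv hm hmk 1 hN (fun t => hM _) _ r c) hβ hg (fun α hα => (hF α hα (-c)).1)
  have t2 := TR_int hH hf ha0 ha1 2 hN (w := fun _ _ => 1) (fun t => continuous_const)
    (fun α t => rfl) (fun α t => rfl) (fun α t => rfl) (E := 16 * (N : ℝ) ^ 2 * (1 * (1 / m) ^ 2)) (r := r) c
    (fun α => TR_triv hm hmk 2 hN (fun t => by simp) _ r c) hβ hg (fun α hα => by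
      have := (hF α hα (-c)).2
      simpa using this)
  rw [← hI] at t1 t2
  rw [pow_one] at t1
  have i1 : ∀ T : ℝ → ℝ, (∫ α in (-π)..π, k0 β α * (r / N * T α)) = r / N * ∫ α in (-π)..π, k0 β α * T α := by
    intro T
    rw [← intervalIntegral.integral_const_mul]
    congr 1
    funext α
    ring
  have i2 : ∀ T : ℝ → ℝ, (∫ α in (-π)..π, k0 β α * (1 / (N : ℝ) ^ 2 * T α)) = 1 / (N : ℝ) ^ 2 * ∫ α in (-π)..π, k0 β α * T α := by
    intro T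
    rw [← intervalIntegral.integral_const_mul]
    congr 1
    funext α
    ring
  rw [i1, i2] at h1
  -- the powers
  set P : ℝ := R₀ ^ (1 / 2 : ℝ) * (N : ℝ) ^ (-(3 / 2) : ℝ) with hP
  have hP0 : 0 ≤ P := by positivity
  have hsq2 : sqrt (R₀ * N) = R₀ ^ (1 / 2 : ℝ) * (N : ℝ) ^ (1 / 2 : ℝ) := by
    rw [sqrt_eq_rpow, mul_rpow hR0.le hN0.le]
  have hq1 : β * (r / N) ≤ 4 * P := by
    have h2 : β * (r / N) ≤ β * (4 * R₀ / N) := by gcongr; exact hr.2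
    refine h2.trans (le_of_eq ?_)
    have h3 : R₀ = R₀ ^ (1 / 2 : ℝ) * R₀ ^ (1 / 2 : ℝ) := by
      rw [← rpow_add hR0]
      norm_num
    have h4 : (N : ℝ) ^ (-(3 / 2) : ℝ) = 1 / ((N : ℝ) ^ (1 / 2 : ℝ) * N) := by
      rw [rpow_neg hN0.le, one_div]
      congr 1
      rw [← rpow_add_one hN0.ne']
      norm_num
    rw [hβd, hP, hsq2, h4]
    have h5 : 0 < R₀ ^ (1 / 2 : ℝ) := by positivity
    have h6 : 0 < (N : ℝ) ^ (1 / 2 : ℝ) := by positivity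
    field_simp
    nlinarith [h3]
  have hq2 : 1 / β * (1 / (N : ℝ) ^ 2) = P := by
    rw [hβd, one_div_one_div, hsq2, hP, mul_assoc]
    congr 1
    rw [show (-(3 / 2) : ℝ) = 1 / 2 - 2 by norm_num, rpow_sub hN0]
    rw [show ((N : ℝ) ^ (2 : ℝ)) = (N : ℝ) ^ (2 : ℕ) by rw [← rpow_natCast]; norm_num]
    ring
  have hq3 : β * (r / N) * (β * (N : ℝ) ^ 2) ≤ 4 := by
    have h2 : β * β = 1 / (R₀ * N) := by
      rw [hβd, div_mul_div_comm, mul_self_sqrt (by positivity), one_mul]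
    have h3 : β * (r / N) * (β * (N : ℝ) ^ 2) = (β * β) * (r / N * (N : ℝ) ^ 2) := by ring
    rw [h3, h2]
    have h4 : r / N * (N : ℝ) ^ 2 = r * N := by field_simp
    rw [h4, one_div, inv_mul_le_iff₀ (by positivity)]
    nlinarith [hr.2]
  have hq4 : 1 / β * (1 / (N : ℝ) ^ 2) * (β * (N : ℝ) ^ 2) = 1 := by
    field_simp
  have hs2 : 0 < sin α₀ ^ 2 := by positivity
  have u1 : β * (r / N * ∫ α in (-π)..π, k0 β α * ‖TR f 1 N (fun t => rho H (t + α)) (ga H α) r c‖) ≤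
      12 * (P * I) + 128 * π * (M * (1 / m)) / sin α₀ ^ 2 := by
    have h2 := mul_le_mul_of_nonneg_left t1 (show 0 ≤ β * (r / N) by positivity)
    have h3 : β * (r / N) * (3 * I + 2 * π * (β / sin α₀ ^ 2 * (16 * (N : ℝ) ^ 2 * (M * (1 / m))))) =
        3 * ((β * (r / N)) * I) + 32 * π * (M * (1 / m)) / sin α₀ ^ 2 * (β * (r / N) * (β * (N : ℝ) ^ 2)) := by ring
    have h4 : (β * (r / N)) * I ≤ 4 * P * I := mul_le_mul_of_nonneg_right hq1 hI0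
    have h5 := mul_le_mul_of_nonneg_left hq3 (show 0 ≤ 32 * π * (M * (1 / m)) / sin α₀ ^ 2 by positivity)
    rw [h3] at h2
    rw [← mul_assoc]
    have h6 : 32 * π * (M * (1 / m)) / sin α₀ ^ 2 * 4 = 128 * π * (M * (1 / m)) / sin α₀ ^ 2 := by ring
    linarith
  have u2 : 1 / β * (1 / (N : ℝ) ^ 2 * ∫ α in (-π)..π, k0 β α * ‖TR f 2 N (fun _ => 1) (ga H α) r c‖) ≤
      3 * (P * I) + 32 * π * (1 / m) ^ 2 / sin α₀ ^ 2 := by
    have h2 := mul_le_mul_of_nonneg_left t2 (show 0 ≤ 1 / β * (1 / (N : ℝ) ^ 2) by positivity)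
    have h3 : 1 / β * (1 / (N : ℝ) ^ 2) * (3 * I + 2 * π * (β / sin α₀ ^ 2 * (16 * (N : ℝ) ^ 2 * (1 * (1 / m) ^ 2)))) =
        3 * ((1 / β * (1 / (N : ℝ) ^ 2)) * I) + 32 * π * (1 / m) ^ 2 / sin α₀ ^ 2 * (1 / β * (1 / (N : ℝ) ^ 2) * (β * (N : ℝ) ^ 2)) := by ring
    rw [h3, hq4, hq2] at h2
    rw [← mul_assoc, hq2]
    linarith
  have hA : 0 ≤ 128 * π * (M * (1 / m)) / sin α₀ ^ 2 := by positivity
  have hB : 0 ≤ 32 * π * (1 / m) ^ 2 / sin α₀ ^ 2 := by positivity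
  have hPI : 0 ≤ P * I := mul_nonneg hP0 hI0
  have h5 := mul_nonneg hA hPI
  have h6 := mul_nonneg hB hPI
  calc _ ≤ _ := h1
    _ ≤ (12 * (P * I) + 128 * π * (M * (1 / m)) / sin α₀ ^ 2) + (3 * (P * I) + 32 * π * (1 / m) ^ 2 / sin α₀ ^ 2) := add_le_add u1 u2
    _ ≤ (15 + 128 * π * (M * (1 / m)) / sin α₀ ^ 2 + 32 * π * (1 / m) ^ 2 / sin α₀ ^ 2) * (P * I + 1) := by nlinarith

/-- the sum over one block -/
theorem ft_blk {H : ℝ → ℝ} (hH : IsSupp H) {f : Fr} (hf : fdet f ≠ 0) {α₀ : ℝ} (ha0 : 0 < α₀) (ha1 : α₀ < π / 2) :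
    ∃ K : ℝ, 1 ≤ K ∧ ∀ N : ℕ, 1 ≤ N → ∀ R₀ r : ℝ, 1 ≤ R₀ → r ∈ Icc (R₀ / 2) (4 * R₀) → ∀ g : ℝ → ℝ, IntegrableOn g (Icc (-α₀) α₀) →
      (∀ α ∈ Icc (-α₀) α₀, ∀ c : ℝ × ℝ,
        ‖LS f (hom (ga H α)) (wr H α) 1 N r c‖ ≤ g α ∧ ‖LS f (hom (ga H α)) (fun _ => 1) 2 N r c‖ ≤ g α) → ∀ c : ℝ × ℝ,
      ‖∑ k ∈ sqa N, ft (fun θ => r * Hf H f θ) k * ee (dt k c)‖ ≤
        K * (R₀ ^ (1 / 2 : ℝ) * (N : ℝ) ^ (-(3 / 2) : ℝ) * (∫ α in Icc (-α₀) α₀, k0 (1 / sqrt (R₀ * N)) α * g α) + 1) := by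
  have hpi := Real.pi_pos
  obtain ⟨m, hm, hmk⟩ := fk_low hf
  obtain ⟨M, hM1, hM⟩ := Pool.Agent.Helper22.OV.rho_bd_o3 hH
  have hM' : ∀ t, |rho H t| ≤ M := by
    intro t
    have := hM t 0 (by simp)
    simpa using this
  obtain ⟨C1, hC1⟩ : ∃ C1 : ℝ, C1 = |fdet f| * (15 + 128 * π * (M * (1 / m)) / sin α₀ ^ 2 + 32 * π * (1 / m) ^ 2 / sin α₀ ^ 2) := ⟨_, rfl⟩
  have hsin : 0 < sin α₀ := sin_pos_of_pos_of_lt_pi ha0 (by linarith)
  have hM0 : 0 ≤ M := by linarith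
  have hC10 : 0 ≤ C1 := by
    rw [hC1]
    positivity
  refine ⟨C1 + 1, by linarith, fun N hN R₀ r hR hr g hg hF c => ?_⟩
  have e : ∑ k ∈ sqa N, ft (fun θ => r * Hf H f θ) k * ee (dt k c) =
      ((|fdet f| : ℝ) : ℂ) * ∑ k ∈ sqa N, ftr (fun θ => r * H θ) (fk f k) * ee (dt k c) := by
    rw [Finset.mul_sum]
    refine Finset.sum_congr rfl fun k _ => ?_
    rw [ft_lin hH.per hf]
    ring
  rw [e, norm_mul, Complex.norm_real, Real.norm_eq_abs, abs_abs]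
  have hb := blk hH hf ha0 ha1 hm hmk hM1 hM' hN hR hr hg hF c
  have h3 : 0 ≤ ∫ α in Icc (-α₀) α₀, k0 (1 / sqrt (R₀ * N)) α * g α := by
    have hN0 : (0 : ℝ) < N := by exact_mod_cast hN
    have hR0 : 0 < R₀ := by linarith
    refine setIntegral_nonneg measurableSet_Icc fun α hα => mul_nonneg (o3_k0_nonneg (by positivity) α) ?_
    exact (norm_nonneg _).trans (hF α hα 0).1
  have h4 : 0 ≤ R₀ ^ (1 / 2 : ℝ) * (N : ℝ) ^ (-(3 / 2) : ℝ) * (∫ α in Icc (-α₀) α₀, k0 (1 / sqrt (R₀ * N)) α * g α) + 1 := by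
    have hR0 : 0 ≤ R₀ := by linarith
    have := mul_nonneg (show 0 ≤ R₀ ^ (1 / 2 : ℝ) * (N : ℝ) ^ (-(3 / 2) : ℝ) by positivity) h3
    linarith
  refine (mul_le_mul_of_nonneg_left hb (abs_nonneg (fdet f))).trans ?_
  rw [← mul_assoc, ← hC1]
  exact mul_le_mul_of_nonneg_right (by linarith) h4

theorem add_rpow_bd {x s : ℝ} (hx : 0 ≤ x) (hs : 0 ≤ s) : (x + 1) ^ s ≤ 2 ^ s * (x ^ s + 1) := by
  rcases le_total x 1 with h | h
  · calc (x + 1) ^ s ≤ 2 ^ s := rpow_le_rpow (by linarith) (by linarith) hs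
      _ = 2 ^ s * 1 := (mul_one _).symm
      _ ≤ _ := mul_le_mul_of_nonneg_left (by have := rpow_nonneg hx s
                                             linarith) (by positivity)
  · calc (x + 1) ^ s ≤ (2 * x) ^ s := rpow_le_rpow (by linarith) (by linarith) hs
      _ = 2 ^ s * x ^ s := mul_rpow (by norm_num) hx
      _ ≤ _ := mul_le_mul_of_nonneg_left (by linarith) (by positivity)

/-- the majorant of one block -/
theorem blkB {md J : Fr → (ℝ × ℝ → ℝ) → ℝ → ℕ → ℝ} {q : ℕ} (hd : Md md J q) (hq : 1 ≤ q) {H : ℝ → ℝ}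
    (hjc : Continuous fun q : ℝ × (ℝ × ℝ) => hom (ga H q.1) q.2) {α₀ : ℝ} (ha0 : 0 < α₀) (ha1 : α₀ < π / 2) {f : Fr} {C₂ : ℝ} (hC₂ : 0 < C₂)
    (hwin : ∀ α ∈ Icc (-α₀) α₀, ∀ N : ℕ, 1 ≤ N → ∀ τ : ℝ, 0 < τ → ∀ r₀ r : ℝ, |r - r₀| ≤ τ → ∀ c : ℝ × ℝ,
      ‖LS f (hom (ga H α)) (wr H α) 1 N r c‖ ^ q ≤ C₂ * (N : ℝ) ^ 2 * (N + 1 / τ) * (∫ r' in Icc (r₀ - 2 * τ) (r₀ + 2 * τ), md f (hom (ga H α)) r' N) ∧
      ‖LS f (hom (ga H α)) (fun _ => 1) 2 N r c‖ ^ q ≤ C₂ * (N : ℝ) ^ 2 * (N + 1 / τ) * (∫ r' in Icc (r₀ - 2 * τ) (r₀ + 2 * τ), md f (hom (ga H α)) r' N))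
    {K : ℝ} (hK : 1 ≤ K)
    (hft : ∀ N : ℕ, 1 ≤ N → ∀ R₀ r : ℝ, 1 ≤ R₀ → r ∈ Icc (R₀ / 2) (4 * R₀) → ∀ g : ℝ → ℝ, IntegrableOn g (Icc (-α₀) α₀) →
      (∀ α ∈ Icc (-α₀) α₀, ∀ c : ℝ × ℝ,
        ‖LS f (hom (ga H α)) (wr H α) 1 N r c‖ ≤ g α ∧ ‖LS f (hom (ga H α)) (fun _ => 1) 2 N r c‖ ≤ g α) → ∀ c : ℝ × ℝ,
      ‖∑ k ∈ sqa N, ft (fun θ => r * Hf H f θ) k * ee (dt k c)‖ ≤
        K * (R₀ ^ (1 / 2 : ℝ) * (N : ℝ) ^ (-(3 / 2) : ℝ) * (∫ α in Icc (-α₀) α₀, k0 (1 / sqrt (R₀ * N)) α * g α) + 1))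
    {p n : ℕ} {τ : ℝ} (hτ : 0 < τ) (hτX : 2 * τ ≤ 2 ^ p / 4) {g₀ : ℝ → ℝ} (hg₀ : Continuous g₀) (hg00 : ∀ α, 0 ≤ g₀ α)
    (hpt : ∀ α ∈ Icc (-α₀) α₀, ∀ r ∈ Icc ((2 : ℝ) ^ p / 2) (4 * 2 ^ p), ∀ c : ℝ × ℝ,
      ‖LS f (hom (ga H α)) (wr H α) 1 (2 ^ n) r c‖ ≤ g₀ α ∧ ‖LS f (hom (ga H α)) (fun _ => 1) 2 (2 ^ n) r c‖ ≤ g₀ α)
    {a I : ℝ} (ha : ∫ α in Icc (-α₀) α₀, k0 (1 / sqrt ((2 : ℝ) ^ p * ((2 ^ n : ℕ) : ℝ))) α * g₀ α ≤ a) (hI : WJ J H α₀ p n f ≤ I)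
    {s : ℝ} (hs : (q : ℝ) ≤ s) :
    ∃ B : ℝ → ℝ, Continuous B ∧ (∀ r, 0 ≤ B r) ∧
      (∀ r ∈ Icc ((2 : ℝ) ^ p / 2) (4 * 2 ^ p), ∀ c' : ℝ × ℝ, ‖∑ k ∈ sqa (2 ^ n), ft (fun θ => r * Hf H f θ) k * ee (dt k c')‖ ≤ B r) ∧
      ∫ r in Icc ((2 : ℝ) ^ p / 2) (4 * 2 ^ p), B r ^ s ≤ K ^ s * (2 ^ s * ((((2 : ℝ) ^ p) ^ (1 / 2 : ℝ) * ((2 ^ n : ℕ) : ℝ) ^ (-(3 / 2) : ℝ)) ^ s *
        (a ^ (s - q) * (21 ^ q * (2 * (2 * τ) * (C₂ * ((2 ^ n : ℕ) : ℝ) ^ 2 * (((2 ^ n : ℕ) : ℝ) + 1 / τ) * I)))) + 4 * 2 ^ p)) := by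
  obtain ⟨X, hX⟩ : ∃ X : ℝ, X = (2 : ℝ) ^ p := ⟨_, rfl⟩
  have hX1 : 1 ≤ X := by
    rw [hX]
    exact one_le_pow₀ (by norm_num)
  have hX0 : 0 < X := by linarith
  have hs1 : 1 ≤ s := le_trans (by exact_mod_cast hq) hs
  have hs0 : 0 ≤ s := by linarith
  obtain ⟨N, hN⟩ : ∃ N : ℕ, N = 2 ^ n := ⟨_, rfl⟩
  have hN1 : 1 ≤ N := by
    rw [hN]
    exact Nat.one_le_two_pow
  have hNr : (1 : ℝ) ≤ N := by exact_mod_cast hN1
  obtain ⟨κ, hκ⟩ : ∃ κ : ℝ → ℝ, κ = k0 (1 / sqrt ((2 : ℝ) ^ p * ((2 ^ n : ℕ) : ℝ))) := ⟨_, rfl⟩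
  have hκc : Continuous κ := by
    rw [hκ]
    exact o3_k0_cont (beta_pos75 p n)
  have hκ0 : ∀ α, 0 ≤ κ α := by
    rw [hκ]
    exact o3_k0_nonneg (beta_pos75 p n)
  have hκ1 : ∫ α in Icc (-α₀) α₀, κ α ≤ 20 := by
    rw [hκ]
    exact mass20 ha0 ha1 (beta_pos75 p n)
  obtain ⟨D, hD⟩ : ∃ D : ℝ × ℝ → ℝ, D = fun z => md f (hom (ga H z.1)) z.2 N := ⟨_, rfl⟩
  have hDc : Continuous D := by
    rw [hD]
    exact hd.cont f (fun α => hom (ga H α)) hjc N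
  have hD0 : ∀ z, 0 ≤ D z := by
    rw [hD]
    exact fun z => hd.nonneg _ _ _ _
  obtain ⟨A, hA⟩ : ∃ A : ℝ, A = C₂ * (N : ℝ) ^ 2 * (N + 1 / τ) := ⟨_, rfl⟩
  have hA0 : 0 < A := by
    rw [hA]
    positivity
  have hI' : ∫ α in Icc (-α₀) α₀, κ α * ∫ r in Icc (X / 4) (8 * X), D (α, r) ≤ I := by
    refine le_trans (le_of_eq ?_) hI
    unfold WJ
    rw [hκ, hD, hX, hN]
    refine integral_congr_ae (Eventually.of_forall fun α => ?_)
    simp only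
    rw [hd.eq]
  have hτX' : 2 * τ ≤ X / 4 := by
    rw [hX]
    exact hτX
  obtain ⟨b1, b2, b3, b4⟩ := block_momW (q := q) hq ha0 hκc hκ0 hκ1 hg₀ hg00 hDc hD0 hA0 (W := 2 * τ) (by linarith) (u := X / 2) (v := 4 * X)
    (by linarith) (by linarith) (by linarith) hI'
  have hWc : ∀ R : ℝ, Continuous fun α : ℝ => ∫ r in Icc (R - 2 * τ) (R + 2 * τ), D (α, r) := fun R =>
    continuous_parametric_integral_of_continuous (f := fun (α : ℝ) (r : ℝ) => D (α, r)) hDc isCompact_Icc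
  obtain ⟨G, hG⟩ : ∃ G : ℝ → ℝ, G = GB κ g₀ D α₀ A (2 * τ) q := ⟨_, rfl⟩
  rw [← hG] at b1 b2 b3 b4
  have hq0 : (0 : ℝ) ≤ 1 / (q : ℝ) := by positivity
  obtain ⟨b, hb⟩ : ∃ b : ℝ, b = X ^ (1 / 2 : ℝ) * (N : ℝ) ^ (-(3 / 2) : ℝ) := ⟨_, rfl⟩
  have hb0 : 0 ≤ b := by
    rw [hb]
    positivity
  have ha' : ∀ R, G R ≤ a := fun R => by
    refine (b3 R).trans ?_
    rw [hκ]
    exact ha
  have ha0' : 0 ≤ a := (b2 0).trans (ha' 0)
  refine ⟨fun r => K * (b * G r + 1), continuous_const.mul ((continuous_const.mul b1).add continuous_const),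
    fun r => mul_nonneg (by linarith) (by have := mul_nonneg hb0 (b2 r)
                                          linarith), ?_, ?_⟩
  · intro r hr c
    have h1 : Continuous fun α : ℝ => min ((A * ∫ r' in Icc (r - 2 * τ) (r + 2 * τ), D (α, r')) ^ (1 / (q : ℝ))) (g₀ α) :=
      ((continuous_const.mul (hWc r)).rpow_const fun _ => Or.inr hq0).min hg₀
    have h2 := hft N hN1 X r hX1 (by rw [hX]; exact hr) _ (h1.continuousOn.integrableOn_compact isCompact_Icc) (by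
      intro α hα c
      have g1 := hpt α hα r hr c
      have g2 := hwin α hα N hN1 τ hτ r r (by simp [hτ.le]) c
      rw [hN] at g2 ⊢
      have e1 : (∫ r' in Icc (r - 2 * τ) (r + 2 * τ), D (α, r')) = ∫ r' in Icc (r - 2 * τ) (r + 2 * τ), md f (hom (ga H α)) r' (2 ^ n) := by
        rw [hD, hN]
      rw [e1, hA, hN]
      exact ⟨le_min (root_le hq (norm_nonneg _) g2.1) g1.1, le_min (root_le hq (norm_nonneg _) g2.2) g1.2⟩) c
    rw [← hN]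
    refine h2.trans (le_of_eq ?_)
    rw [hb, hG]
    unfold GB
    rw [hκ, hX, hN]
  · rw [← hX, ← hN, ← hA, ← hb]
    have hGc : Continuous fun r => (b * G r) ^ s := (continuous_const.mul b1).rpow_const fun _ => Or.inr hs0
    have hvol : volume.real (Icc (X / 2) (4 * X)) ≤ 4 * X := by
      rw [Measure.real, Real.volume_Icc, ENNReal.toReal_ofReal (by linarith)]
      linarith
    have hpw : ∀ r, (K * (b * G r + 1)) ^ s ≤ K ^ s * (2 ^ s * (b ^ s * (a ^ (s - q) * G r ^ q) + 1)) := by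
      intro r
      have h0 : 0 ≤ b * G r := mul_nonneg hb0 (b2 r)
      rw [mul_rpow (by linarith) (by linarith)]
      refine mul_le_mul_of_nonneg_left ((add_rpow_bd h0 hs0).trans (mul_le_mul_of_nonneg_left (add_le_add_left ?_ 1) (by positivity))) (by positivity)
      rw [mul_rpow hb0 (b2 r)]
      refine mul_le_mul_of_nonneg_left ?_ (by positivity)
      calc G r ^ s = G r ^ ((s - q) + q) := by
            congr 1
            ring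
        _ = G r ^ (s - q) * G r ^ (q : ℝ) := rpow_add_of_nonneg (b2 r) (by linarith) (by positivity)
        _ = G r ^ (s - q) * G r ^ q := by rw [rpow_natCast]
        _ ≤ _ := mul_le_mul_of_nonneg_right (rpow_le_rpow (b2 r) (ha' r) (by linarith)) (pow_nonneg (b2 r) q)
    have hint : IntegrableOn (fun r => G r ^ q) (Icc (X / 2) (4 * X)) := (b1.pow q).continuousOn.integrableOn_compact isCompact_Icc
    calc ∫ r in Icc (X / 2) (4 * X), (K * (b * G r + 1)) ^ s ≤ ∫ r in Icc (X / 2) (4 * X), K ^ s * (2 ^ s * (b ^ s * (a ^ (s - q) * G r ^ q) + 1)) := by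
          refine setIntegral_mono_on ?_ ?_ measurableSet_Icc fun r _ => hpw r
          · exact ((continuous_const.mul ((continuous_const.mul b1).add continuous_const)).rpow_const fun _ => Or.inr hs0).continuousOn.integrableOn_compact
              isCompact_Icc
          · exact (continuous_const.mul (continuous_const.mul ((continuous_const.mul (continuous_const.mul (b1.pow q))).add
              continuous_const))).continuousOn.integrableOn_compact isCompact_Icc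
      _ = K ^ s * (2 ^ s * (b ^ s * (a ^ (s - q) * ∫ r in Icc (X / 2) (4 * X), G r ^ q) + volume.real (Icc (X / 2) (4 * X)))) := by
          rw [integral_const_mul, integral_const_mul, integral_add ((hint.const_mul _).const_mul _)
            (continuousOn_const.integrableOn_compact isCompact_Icc), integral_const_mul, integral_const_mul, setIntegral_const, smul_eq_mul, mul_one]
      _ ≤ _ := by
          refine mul_le_mul_of_nonneg_left (mul_le_mul_of_nonneg_left (add_le_add ?_ hvol) (by positivity)) (by positivity)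
          exact mul_le_mul_of_nonneg_left (mul_le_mul_of_nonneg_left b4 (by positivity)) (by positivity)

end Pool.Agent.Helper75.LMA
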