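import Pool.Agent.Helper75.LMA.One
import Pool.Agent.Helper75.LM.Asm
import Pool.Agent.Helper64.LMA.Ae

/-!
# Project LMA: block bounds of order `s` for almost every frame
-/

open MeasureTheory Real Set Filter Topology Metric
open scoped ENNReal NNReal

set_option autoImplicit false

namespace Pool.Agent.Helper75.LMA

open Pool.Agent.Helper22.AE
open Pool.Agent.Helper22.AC (cntc ga)
open Pool.Agent.Helper22.OV (o3_k0_cont o3_k0_nonneg)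
open Pool.Agent.Helper75.TW (m20 J20 mm_J20 mm_JJ TB MomF F12 momS_all)
open Pool.Agent.Helper75.GD (WJ beta_pos75)
open Pool.Agent.Helper92.LA (JJ Fb HL WL)
open Pool.Agent.Helper22.LP (Fr fk fdet hom LS wr Hf)
open Pool.Agent.Helper75.LM

/-- almost every frame, with the moments of order 20 -/
theorem blk20 {H : ℝ → ℝ} (hH : IsSupp H) {α₀ c₁ B : ℝ} (ha0 : 0 < α₀) (ha1 : α₀ < π / 2) (hc₁ : 0 < c₁) (hc₁1 : c₁ ≤ 1) (hB : 1 ≤ B)
    (hjc : Continuous fun q : ℝ × (ℝ × ℝ) => hom (ga H q.1) q.2)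
    (hfam : ∀ α ∈ Icc (-α₀) α₀, Pool.Agent.Helper60.LT.Hom c₁ B (hom (ga H α)) ∧ HL B (hom (ga H α)) ∧ WL B (wr H α) ∧ WL B (fun _ => 1))
    {P : (ℝ × ℝ → ℝ) → Prop} (hP : ∀ α ∈ Icc (-α₀) α₀, P (hom (ga H α)))
    (hq : MomF J20 (fun X N => X * (N ^ 20 + N ^ 34 * (X * N) ^ (-(7 / 4) : ℝ))) P 0 (1 / 3)) :
    ∀ᵐ f : Fr, 0 < fdet f → ∀ s : ℝ, ((20 : ℕ) : ℝ) ≤ s → s < ((36 : ℕ) : ℝ) → ∃ e₀ : ℝ, 0 < e₀ ∧ ∀ e : ℝ, 0 < e → e ≤ e₀ → BlkT (Hf H f) s e := by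
  have h1 := ae_JF mm_J20 (fun X N hX hN => by
      have hX0 : 0 < X := by linarith
      have hN0 : 0 < N := by linarith
      show 0 < X * (N ^ 20 + N ^ 34 * (X * N) ^ (-(7 / 4) : ℝ))
      positivity) hq (h := fun α => hom (ga H α)) hjc (α₀ := α₀) hP
    (κ := fun p n => k0 (1 / sqrt ((2 : ℝ) ^ p * ((2 ^ n : ℕ) : ℝ)))) (fun p n => o3_k0_cont (beta_pos75 p n)) (fun p n => o3_k0_nonneg (beta_pos75 p n))
    (K := 20) (fun p n => mass20 ha0 ha1 (beta_pos75 p n))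
  have h2 := ae_JF mm_JJ (F := F12) (fun X N hX hN => by
      have hX0 : 0 < X := by linarith
      have hN0 : 0 < N := by linarith
      unfold F12
      positivity) (Pool.Agent.Helper86.LK.momF12 hc₁ hc₁1 hB (momS_all hc₁ hc₁1 hB) (ν₂ := 0) (ν₃ := 1) le_rfl) (h := fun α => hom (ga H α)) hjc (α₀ := α₀)
    (fun α hα => (hfam α hα).1)
    (κ := fun p n => k0 (1 / sqrt ((2 : ℝ) ^ p * ((2 ^ n : ℕ) : ℝ)))) (fun p n => o3_k0_cont (beta_pos75 p n)) (fun p n => o3_k0_nonneg (beta_pos75 p n))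
    (K := 20) (fun p n => mass20 ha0 ha1 (beta_pos75 p n))
  have h3 := Pool.Agent.Helper64.LMA.ws20 hH ha0 ha1 hjc hP hq
  filter_upwards [h1, h2, h3] with f hf hf' hws hdet
  have hX1 : ∀ p : ℕ, (1 : ℝ) ≤ 2 ^ p := fun p => one_le_pow₀ (by norm_num)
  have key : ∀ (C T F W Xe : ℝ), 0 ≤ C → 0 ≤ Xe → F ≤ 2 * T → W ≤ C * (Xe * F) → W ≤ 2 * C * (Xe * T) := by
    intro C T F W Xe hC hXe hF hW
    calc W ≤ C * (Xe * F) := hW
      _ ≤ C * (Xe * (2 * T)) := mul_le_mul_of_nonneg_left (mul_le_mul_of_nonneg_left hF hXe) hC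
      _ = _ := by ring
  have hz : ∀ p n : ℕ, ((2 : ℝ) ^ p) ^ (0 : ℝ) ≤ (2 : ℝ) ^ n := fun p n => by
    rw [rpow_zero]
    exact hX1 n
  have h4 := blkT_of hH ha0 ha1 hjc (fun α hα => (hfam α hα).2) hdet.ne' md_20 md_12 (q := 20) (q' := 12) (by norm_num) (by norm_num) (by norm_num)
    (P := 36) (by norm_num) (θ := 9 / 17) (ν₂ := 1 / 4) (by norm_num) (by norm_num) (by norm_num) (hws hdet)
    (fun e he he1 => by
      obtain ⟨C₁, hC₁, hJ⟩ := hf hdet e he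
      exact ⟨2 * C₁, by positivity, fun p n hn a b => key C₁ _ _ _ _ hC₁ (by positivity)
        (num_b (hX1 p) (hX1 n) (by rw [show (2 * (9 / 17) - 1 : ℝ) = 1 / 17 by norm_num] at a; exact a) b)
        (hJ p n hn (hz p n) (b.trans (rpow_le_rpow_of_exponent_le (hX1 p) (by norm_num))))⟩)
    (fun e he he1 => by
      obtain ⟨C₂, hC₂, hJ'⟩ := hf' hdet e he
      exact ⟨2 * C₂, by positivity, fun p n hn _ b c => key C₂ _ _ _ _ hC₂ (by positivity)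
        (num_c (hX1 p) (hX1 n) b (c.trans (rpow_le_rpow_of_exponent_le (hX1 p) (by linarith))))
        (hJ' p n hn (hz p n) (c.trans (rpow_le_rpow_of_exponent_le (hX1 p) (by linarith))))⟩)
  intro s hs hs'
  exact h4 s hs (by exact_mod_cast hs')

/-- almost every frame, every oval -/
theorem blk12 {H : ℝ → ℝ} (hH : IsSupp H) (h5 : ContDiff ℝ 5 H) :
    ∀ᵐ f : Fr, 0 < fdet f → ∀ s : ℝ, ((12 : ℕ) : ℝ) ≤ s → s < ((20 : ℕ) : ℝ) → ∃ e₀ : ℝ, 0 < e₀ ∧ ∀ e : ℝ, 0 < e → e ≤ e₀ → BlkT (Hf H f) s e := by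
  obtain ⟨α₀, c₁, B, ha0, ha1, hc₁, hc₁1, hB, hjc, hfam⟩ := Pool.Agent.Helper92.LA.fam hH h5
  have h2 := ae_JF mm_JJ (F := F12) (fun X N hX hN => by
      have hX0 : 0 < X := by linarith
      have hN0 : 0 < N := by linarith
      unfold F12
      positivity) (Pool.Agent.Helper86.LK.momF12 hc₁ hc₁1 hB (momS_all hc₁ hc₁1 hB) (ν₂ := 0) (ν₃ := 1) le_rfl) (h := fun α => hom (ga H α)) hjc (α₀ := α₀)
    (fun α hα => (hfam α hα).1)
    (κ := fun p n => k0 (1 / sqrt ((2 : ℝ) ^ p * ((2 ^ n : ℕ) : ℝ)))) (fun p n => o3_k0_cont (beta_pos75 p n)) (fun p n => o3_k0_nonneg (beta_pos75 p n))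
    (K := 20) (fun p n => mass20 ha0 ha1 (beta_pos75 p n))
  have h3 := Pool.Agent.Helper64.LMA.ws12 hH ha0 ha1 hc₁ hc₁1 hB hjc (fun α hα => (hfam α hα).1)
  filter_upwards [h2, h3] with f hf' hws hdet
  have hX1 : ∀ p : ℕ, (1 : ℝ) ≤ 2 ^ p := fun p => one_le_pow₀ (by norm_num)
  have key : ∀ (C T F W Xe : ℝ), 0 ≤ C → 0 ≤ Xe → F ≤ 2 * T → W ≤ C * (Xe * F) → W ≤ 2 * C * (Xe * T) := by
    intro C T F W Xe hC hXe hF hW
    calc W ≤ C * (Xe * F) := hW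
      _ ≤ C * (Xe * (2 * T)) := mul_le_mul_of_nonneg_left (mul_le_mul_of_nonneg_left hF hXe) hC
      _ = _ := by ring
  have hz : ∀ p n : ℕ, ((2 : ℝ) ^ p) ^ (0 : ℝ) ≤ (2 : ℝ) ^ n := fun p n => by
    rw [rpow_zero]
    exact hX1 n
  have hmid : ∀ e : ℝ, 0 < e → e ≤ 1 / 102 → ∃ C : ℝ, 0 ≤ C ∧ ∀ p n : ℕ, n ≤ p → ((2 : ℝ) ^ p) ^ (2 * (5 / 9) - 1 : ℝ) ≤ (2 : ℝ) ^ n →
      (2 : ℝ) ^ n ≤ ((2 : ℝ) ^ p) ^ (1 / 2 + e) → WJ JJ H α₀ p n f ≤ C * (((2 : ℝ) ^ p) ^ e * TB 12 (5 / 9) ((2 : ℝ) ^ p) (2 ^ n)) := fun e he he1 => by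
    obtain ⟨C₂, hC₂, hJ'⟩ := hf' hdet e he
    exact ⟨2 * C₂, by positivity, fun p n hn a c => key C₂ _ _ _ _ hC₂ (by positivity)
      (num_e (hX1 p) (hX1 n) (by rw [show (2 * (5 / 9) - 1 : ℝ) = 1 / 9 by norm_num] at a; exact a) (c.trans (rpow_le_rpow_of_exponent_le (hX1 p) (by linarith))))
      (hJ' p n hn (hz p n) (c.trans (rpow_le_rpow_of_exponent_le (hX1 p) (by linarith))))⟩
  have h4 := blkT_of hH ha0 ha1 hjc (fun α hα => (hfam α hα).2) hdet.ne' md_12 md_12 (q := 12) (q' := 12) (by norm_num) (by norm_num) (by norm_num)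
    (P := 20) (by norm_num) (θ := 5 / 9) (ν₂ := 1 / 2) (by norm_num) (by norm_num) (by norm_num) (hws hdet)
    (fun e he he1 => by
      obtain ⟨C, hC, h⟩ := hmid e he he1
      exact ⟨C, hC, fun p n hn a b => h p n hn a (b.trans (rpow_le_rpow_of_exponent_le (hX1 p) (by linarith)))⟩)
    (fun e he he1 => by
      obtain ⟨C, hC, h⟩ := hmid e he he1
      exact ⟨C, hC, fun p n hn a _ c => h p n hn a c⟩)
  intro s hs hs'
  exact h4 s hs (by exact_mod_cast hs')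

end Pool.Agent.Helper75.LMA
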