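import Pool.Agent.Helper75.LM.Fin
import Pool.Agent.Helper64.LMA.End
import Pool.Agent.Helper33.LMA.Abl
import Pool.Agent.Helper64.LMA.NRf

/-!
# Project LMA: the exceptional sets with the limit law
-/

open MeasureTheory Real Set Filter Topology Metric
open scoped ENNReal NNReal

set_option autoImplicit false

namespace Pool.Agent.Helper75.LMA

open Pool.Agent.Helper22.AE
open Pool.Agent.Helper22.AC (cntc)
open Pool.Agent.Helper75.GD (LB)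
open Pool.Agent.Helper92.LA (lcnt dl)
open Pool.Agent.Helper22.LP (Fr fdet Hf)
open Pool.Agent.Helper33.LMA (Law LawL)
open Pool.Agent.Helper64.LMA (AsL tr_dl tr_shf)
open Pool.Agent.Helper75.LM (ex HB HB_all HB_of_LB LMo haus_big)

/-- `ν` is the limit law of `U R / √R`, with the moments of the orders less than `P` -/
def LimT (P : ℝ) (U : ℝ → ℝ) (ν : Measure ℝ) : Prop :=
  IsProbabilityMeasure ν ∧ ∀ f : ℝ → ℝ, Continuous f → ∀ p : ℝ, 0 ≤ p → p < P → ∀ A : ℝ, (∀ y, |f y| ≤ A * (1 + |y|) ^ p) →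
    Integrable f ν ∧ Tendsto (fun X : ℝ => X⁻¹ * ∫ R in Icc X (2 * X), f (U R / √R)) atTop (nhds (∫ y, f y ∂ν))

/-- the limit laws for a lattice -/
def LawsT (P : ℝ) (H : ℝ → ℝ) (ab : Fr) : Prop :=
  ∀ U : ℝ → ℝ, ((U = fun R => ⨆ c : ℝ × ℝ, |lcnt ab H c R - area H * R ^ 2 / abs (fdet ab)|) ∨
    ∃ c : ℝ × ℝ, U = fun R => lcnt ab H c R - area H * R ^ 2 / abs (fdet ab)) → ∃ ν : Measure ℝ, LimT P U ν ∧ 0 < ∫ y, |y| ∂ν

theorem tend_of {u : ℝ → ℝ} {a : ℝ} (h : ∀ d : ℝ, 0 < d → ∃ X₀ : ℝ, 1 ≤ X₀ ∧ ∀ X : ℝ, X₀ ≤ X → |u X - a| ≤ d) : Tendsto u atTop (nhds a) := by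
  rw [Metric.tendsto_atTop]
  intro ε hε
  obtain ⟨X₀, -, hX⟩ := h (ε / 2) (by linarith)
  refine ⟨X₀, fun X hXX => ?_⟩
  rw [Real.dist_eq]
  linarith [hX X hXX]

theorem limT_of {P : ℝ} {U : ℝ → ℝ} (h : Law U P) : ∃ ν : Measure ℝ, LimT P U ν ∧ 0 < ∫ y, |y| ∂ν := by
  obtain ⟨ν, h1, h2, h3⟩ := h
  refine ⟨ν, ⟨h1, fun f hf p hp hpP A hA => ?_⟩, h2⟩
  obtain ⟨h4, h5⟩ := h3 f hf p hp hpP A hA
  exact ⟨h4, tend_of h5⟩

theorem law_of_limT {P : ℝ} {U : ℝ → ℝ} (h : ∃ ν : Measure ℝ, LimT P U ν ∧ 0 < ∫ y, |y| ∂ν) : Law U P := by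
  obtain ⟨ν, ⟨h1, h3⟩, h2⟩ := h
  refine ⟨ν, h1, h2, fun f hf p hp hpP A hA => ?_⟩
  obtain ⟨h4, h5⟩ := h3 f hf p hp hpP A hA
  refine ⟨h4, fun d hd => ?_⟩
  obtain ⟨N, hN⟩ := Metric.tendsto_atTop.1 h5 d hd
  refine ⟨max N 1, le_max_right _ _, fun X hX => ?_⟩
  have h6 := hN X ((le_max_left _ _).trans hX)
  rw [Real.dist_eq] at h6
  exact h6.le

theorem lawsT_of {H : ℝ → ℝ} {P : ℝ} {ab : Fr} (h : LawL H P ab)
    (h' : ∀ c : ℝ × ℝ, Law (fun R => lcnt ab H c R - area H * R ^ 2 / abs (fdet ab)) P) : LawsT P H ab := by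
  rintro U (hU | ⟨c, hU⟩)
  · rw [hU]
    exact limT_of h
  · rw [hU]
    exact limT_of (h' c)

open Pool.Agent.Helper75.TW (AffPos AffOk)
open Pool.Agent.Helper64.LMA (law_12 law_aff law_gen lawC_12 lawC_aff lawC_gen)

/-- limit laws, every oval of class `C⁵` -/
theorem laws_12 {H : ℝ → ℝ} (h5 : ContDiff ℝ 5 H) (hp : Function.Periodic H (2 * π)) (hr : ∀ t, 0 < H t + deriv (deriv H) t) :
    ∀ᵐ ab : Fr, fdet ab ≠ 0 ∧ LawsT 20 H ab := by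
  filter_upwards [law_12 h5 hp hr, lawC_12 h5 hp hr] with ab h1 h2
  exact ⟨h1.1, lawsT_of h1.2 h2.2⟩

/-- limit laws, ovals with positive affine curvature -/
theorem laws_aff {H : ℝ → ℝ} (h6 : ContDiff ℝ 6 H) (hp : Function.Periodic H (2 * π)) (hr : ∀ t, 0 < H t + deriv (deriv H) t) (ha : AffPos H) :
    ∀ᵐ ab : Fr, fdet ab ≠ 0 ∧ LawsT 36 H ab := by
  filter_upwards [law_aff h6 hp hr ha, lawC_aff h6 hp hr ha] with ab h1 h2
  exact ⟨h1.1, lawsT_of h1.2 h2.2⟩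

/-- limit laws, ovals whose affine curvature has no multiple zero -/
theorem laws_gen {H : ℝ → ℝ} (h7 : ContDiff ℝ 7 H) (hp : Function.Periodic H (2 * π)) (hr : ∀ t, 0 < H t + deriv (deriv H) t) (ha : AffOk H) :
    ∀ᵐ ab : Fr, fdet ab ≠ 0 ∧ LawsT 36 H ab := by
  filter_upwards [law_gen h7 hp hr ha, lawC_gen h7 hp hr ha] with ab h1 h2
  exact ⟨h1.1, lawsT_of h1.2 h2.2⟩

/-- the exceptional sets -/
theorem small_law {H : ℝ → ℝ} {P : ℕ} {θ : ℝ} {d : ℝ → ℝ} {L : Fr → Prop} (hP : 1 ≤ P) (hθ : 1 / 2 < θ) (hPθ : (P : ℝ) * (θ - 1 / 2) = 2 * θ)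
    (h1 : ∀ᵐ ab : Fr, fdet ab ≠ 0 ∧ LB H θ ab) (h2 : ∀ᵐ ab : Fr, fdet ab ≠ 0 ∧ LMo H P θ ab) (hL : ∀ᵐ ab : Fr, fdet ab ≠ 0 ∧ L ab)
    (h3 : ∀ e : ℝ, θ ≤ e → e ≤ 5 / 8 → μH[d e] {ab : Fr | fdet ab ≠ 0 ∧ ¬ LB H e ab} = 0) {e : ℝ} (he1 : e ≤ 5 / 8) (h4 : e < θ → 4 < d e) :
    volume {ab : Fr | fdet ab ≠ 0 ∧ ((∃ p : ℝ≥0∞, 0 < p ∧ ex θ P p ≤ e ∧ ¬ HB H p e ab) ∨ (e = 1 / 2 ∧ ¬ L ab))} = 0 ∧
      μH[d e] {ab : Fr | fdet ab ≠ 0 ∧ ((∃ p : ℝ≥0∞, 0 < p ∧ ex θ P p ≤ e ∧ ¬ HB H p e ab) ∨ (e = 1 / 2 ∧ ¬ L ab))} = 0 := by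
  constructor
  · have h5 : ∀ᵐ ab : Fr, ¬ (fdet ab ≠ 0 ∧ ((∃ p : ℝ≥0∞, 0 < p ∧ ex θ P p ≤ e ∧ ¬ HB H p e ab) ∨ (e = 1 / 2 ∧ ¬ L ab))) := by
      filter_upwards [h1, h2, hL] with ab ha hb hc
      rintro ⟨-, ⟨p, hp, hpe, hn⟩ | ⟨-, hn⟩⟩
      · exact hn ((HB_all hP hθ hPθ ha.2 hb.2 hp).mono hpe)
      · exact hn hc.2
    have h6 := ae_iff.1 h5
    simpa only [not_not] using h6
  · rcases lt_or_ge e θ with h | h
    · exact haus_big (h4 h) _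
    · refine measure_mono_null ?_ (h3 e h he1)
      rintro ab ⟨ha, ⟨p, hp, -, hn⟩ | ⟨he, -⟩⟩
      · exact ⟨ha, fun hl => hn (HB_of_LB (by linarith) hl hp)⟩
      · exact absurd he (by linarith)

/-- the error at the worst centre of a lattice is finite and a Borel function of the radius -/
theorem worst_facts {H : ℝ → ℝ} (h2 : ContDiff ℝ 2 H) (hp : Function.Periodic H (2 * π)) (hr : ∀ t, 0 < H t + deriv (deriv H) t)
    {ab : Fr} (h : fdet ab ≠ 0) :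
    (∀ R : ℝ, BddAbove (range fun c : ℝ × ℝ => |lcnt ab H c R - area H * R ^ 2 / abs (fdet ab)|)) ∧
      (Measurable fun R : ℝ => ⨆ c : ℝ × ℝ, |lcnt ab H c R - area H * R ^ 2 / abs (fdet ab)|) ∧
      ∀ p : ℝ, 0 < p → ∀ R : ℝ, ⨆ c : ℝ × ℝ, ENNReal.ofReal (|lcnt ab H c R - area H * R ^ 2 / abs (fdet ab)| ^ p) =
        ENNReal.ofReal ((⨆ c : ℝ × ℝ, |lcnt ab H c R - area H * R ^ 2 / abs (fdet ab)|) ^ p) := by
  obtain ⟨v, hv⟩ := Pool.Agent.Helper22.OV.exists_shift h2 hp hr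
  have hdl : fdet (dl ab) ≠ 0 := by
    rw [Pool.Agent.Helper92.LA.fdet_dl h]
    positivity
  have hf := Pool.Agent.Helper22.LP.Hf_isSupp hv hdl
  have hs := Pool.Agent.Helper60.WC.supE_facts hf.smooth hf.per hf.rho_pos
  have e : (fun R : ℝ => ⨆ c : ℝ × ℝ, |lcnt ab H c R - area H * R ^ 2 / abs (fdet ab)|) =
      Pool.Agent.Helper22.WC.SupE (Hf (Pool.Agent.Helper22.OV.shf H v) (dl ab)) := by
    funext R
    have h3 := tr_shf (ab := ab) (H := H) v (fun t : ℝ => t) R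
    have h4 := tr_dl (H := Pool.Agent.Helper22.OV.shf H v) hv.per h (fun t : ℝ => t) R
    exact h3.trans h4
  refine ⟨?_, ?_, ?_⟩
  · intro R
    obtain ⟨B, hB⟩ := hs.1 R
    refine ⟨B, ?_⟩
    rintro _ ⟨c, rfl⟩
    have h5 : lcnt ab (Pool.Agent.Helper22.OV.shf H v) (c.1 - R * v.1, c.2 - R * v.2) R = lcnt ab H c R := by
      unfold lcnt
      congr 1
      refine Nat.card_congr (Equiv.subtypeEquivRight fun k => ?_)
      refine forall_congr' fun t => ?_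
      unfold Pool.Agent.Helper22.OV.shf
      simp only
      constructor
      · intro h
        linarith
      · intro h
        linarith
    have h6 := Pool.Agent.Helper33.LM.err_dl hv.per h (c.1 - R * v.1, c.2 - R * v.2) R
    rw [h5, Pool.Agent.Helper22.OV.area_shf] at h6
    simp only
    rw [h6]
    exact hB ⟨_, rfl⟩
  · rw [e]
    exact hs.2.2.1
  · intro p hp0 R
    have h3 := tr_shf (ab := ab) (H := H) v (fun t : ℝ => ENNReal.ofReal (t ^ p)) R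
    have h4 := tr_dl (H := Pool.Agent.Helper22.OV.shf H v) hv.per h (fun t : ℝ => ENNReal.ofReal (t ^ p)) R
    have h5 := hs.2.2.2 p hp0 R
    have h6 := congrFun e R
    rw [h6]
    exact (h3.trans h4).trans h5

/-- the error at the worst centre is bounded on bounded sets -/
theorem worst_ok {H : ℝ → ℝ} (h2 : ContDiff ℝ 2 H) (hp : Function.Periodic H (2 * π)) (hr : ∀ t, 0 < H t + deriv (deriv H) t)
    {ab : Fr} (h : fdet ab ≠ 0) : (Measurable fun R : ℝ => ⨆ c : ℝ × ℝ, |lcnt ab H c R - area H * R ^ 2 / abs (fdet ab)|) ∧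
      ∀ Y : ℝ, ∃ C : ℝ, ∀ R ∈ Icc 1 Y, abs (⨆ c : ℝ × ℝ, |lcnt ab H c R - area H * R ^ 2 / abs (fdet ab)|) ≤ C := by
  refine ⟨(worst_facts h2 hp hr h).2.1, ?_⟩
  obtain ⟨v, hv⟩ := Pool.Agent.Helper22.OV.exists_shift h2 hp hr
  have hdl : fdet (dl ab) ≠ 0 := by
    rw [Pool.Agent.Helper92.LA.fdet_dl h]
    positivity
  have hf := Pool.Agent.Helper22.LP.Hf_isSupp hv hdl
  have hs := Pool.Agent.Helper60.WC.supE_facts hf.smooth hf.per hf.rho_pos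
  intro Y
  obtain ⟨C, hC⟩ := hs.2.1 Y
  refine ⟨C, fun R hR => ?_⟩
  have h3 := tr_shf (ab := ab) (H := H) v (fun t : ℝ => t) R
  have h4 := tr_dl (H := Pool.Agent.Helper22.OV.shf H v) hv.per h (fun t : ℝ => t) R
  have e : (⨆ c : ℝ × ℝ, |lcnt ab H c R - area H * R ^ 2 / abs (fdet ab)|) =
      Pool.Agent.Helper22.WC.SupE (Hf (Pool.Agent.Helper22.OV.shf H v) (dl ab)) R := h3.trans h4
  rw [e, abs_of_nonneg (hC R hR).1]
  exact (hC R hR).2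

/-- the asymptotic formulas, from the laws -/
theorem asyU_of {H : ℝ → ℝ} (h2 : ContDiff ℝ 2 H) (hp : Function.Periodic H (2 * π)) (hr : ∀ t, 0 < H t + deriv (deriv H) t)
    {ab : Fr} (h : fdet ab ≠ 0) {P : ℝ} {U : ℝ → ℝ} (hU : (U = fun R => ⨆ c : ℝ × ℝ, |lcnt ab H c R - area H * R ^ 2 / abs (fdet ab)|) ∨
      ∃ c : ℝ × ℝ, U = fun R => lcnt ab H c R - area H * R ^ 2 / abs (fdet ab)) (hL : ∃ ν : Measure ℝ, LimT P U ν ∧ 0 < ∫ y, |y| ∂ν) {p : ℝ} (hp0 : 0 < p) (hpP : p < P) :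
    ∃ M : ℝ, 0 < M ∧ Tendsto (fun X : ℝ => (∫ R in Icc 1 X, |U R| ^ p) / X ^ (1 + p / 2)) atTop (nhds M) := by
  have hm : Measurable U ∧ ∀ Y, ∃ C, ∀ R ∈ Icc 1 Y, |U R| ≤ C := by
    rcases hU with hU | ⟨c, hU⟩
    · rw [hU]
      exact worst_ok h2 hp hr h
    · rw [hU]
      exact Pool.Agent.Helper33.LMA.okU_lat h2 hp hr h c
  exact Pool.Agent.Helper33.LMA.asym_of_law hm.1 hm.2 (law_of_limT hL) hp0 hpP

end Pool.Agent.Helper75.LMA
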